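import Pool.Agent.R662.GT.Defs
import Pool.Agent.Y351.LQ.PBWB

/-!
# Commutation relations and the PBW basis for `U(gl(n))`
-/

set_option autoImplicit false

namespace Pool.Agent.R662.GT

attribute [local instance 100] LieRing.ofAssociativeRing

theorem E_comm {n : ℕ} (i j k l : Fin n) :
    (E i j : U n) * E k l - E k l * E i j =
      (if j = k then E i l else 0) - (if l = i then E k j else 0) := by
  have h := (iota n).map_lie (Matrix.single i j (1 : ℂ)) (Matrix.single k l (1 : ℂ))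
  rw [Ring.lie_def, Ring.lie_def] at h
  change E i j * E k l - E k l * E i j = _
  unfold E
  rw [← h, map_sub]
  congr 1
  · split_ifs with hjk
    · subst hjk
      rw [Matrix.single_mul_single_same, one_mul]
    · rw [Matrix.single_mul_single_of_ne (h := hjk), map_zero]
  · split_ifs with hjk
    · subst hjk
      rw [Matrix.single_mul_single_same, one_mul]
    · rw [Matrix.single_mul_single_of_ne (h := hjk), map_zero]

theorem Phi_E {m n : ℕ} (hmn : m ≤ n) (i j : Fin m) :
    Phi hmn (E i j) = E (Fin.castLE hmn i) (Fin.castLE hmn j) := by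
  unfold Phi E
  refine (UniversalEnvelopingAlgebra.lift_ι_apply ℂ (cornerU hmn)
    (Matrix.single i j (1 : ℂ))).trans ?_
  change iota n (cornerFun (Matrix.single i j (1 : ℂ)) : gl n) = _
  congr 1
  ext a b
  simp only [cornerFun, Matrix.single_apply, Fin.ext_iff, Fin.val_castLE]
  split_ifs with h1 h2 h3 h3 <;> simp_all
  exfalso
  exact absurd (h1 (h3.1 ▸ i.2)) (not_le.2 (h3.2 ▸ j.2))

/-- Index pairs. -/
def Ix (n : ℕ) : Type := Fin n × Fin n

instance (n : ℕ) : DecidableEq (Ix n) := inferInstanceAs (DecidableEq (Fin n × Fin n))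

instance (n : ℕ) : Fintype (Ix n) := inferInstanceAs (Fintype (Fin n × Fin n))

/-- the key for the order: the lower pairs first, row by row -/
def Ix.key {n : ℕ} (p : Ix n) : Lex (Bool × Lex (Fin n × Fin n)) :=
  toLex (decide (p.1 ≤ p.2), toLex (p.1, p.2))

theorem Ix.key_inj {n : ℕ} : Function.Injective (Ix.key (n := n)) := by
  intro p q h
  have h2 : ((p.1, p.2) : Fin n × Fin n) = (q.1, q.2) := congrArg (fun z => ofLex (ofLex z).2) h
  exact Prod.ext (congrArg Prod.fst h2) (congrArg Prod.snd h2)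

noncomputable instance (n : ℕ) : LinearOrder (Ix n) := LinearOrder.lift' Ix.key Ix.key_inj

theorem Ix.lt_def {n : ℕ} (p q : Ix n) : p < q ↔
    (p.2 < p.1 ∧ q.1 ≤ q.2) ∨ ((p.1 ≤ p.2 ↔ q.1 ≤ q.2) ∧ (p.1 < q.1 ∨ (p.1 = q.1 ∧ p.2 < q.2))) := by
  change p.key < q.key ↔ _
  unfold Ix.key
  rw [Prod.Lex.toLex_lt_toLex, Prod.Lex.toLex_lt_toLex]
  by_cases h1 : p.1 ≤ p.2 <;> by_cases h2 : q.1 ≤ q.2 <;> simp [h1, h2, not_le.1, not_lt.2]

theorem Ix.le_def {n : ℕ} (p q : Ix n) : p ≤ q ↔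
    (p.2 < p.1 ∧ q.1 ≤ q.2) ∨ ((p.1 ≤ p.2 ↔ q.1 ≤ q.2) ∧ (p.1 < q.1 ∨ (p.1 = q.1 ∧ p.2 ≤ q.2))) := by
  rw [le_iff_lt_or_eq, Ix.lt_def]
  constructor
  · rintro (h | h)
    · rcases h with h | ⟨h, h' | h'⟩
      · exact Or.inl h
      · exact Or.inr ⟨h, Or.inl h'⟩
      · exact Or.inr ⟨h, Or.inr ⟨h'.1, h'.2.le⟩⟩
    · subst h
      exact Or.inr ⟨Iff.rfl, Or.inr ⟨rfl, le_rfl⟩⟩
  · rintro (h | ⟨h, h' | h'⟩)
    · exact Or.inl (Or.inl h)
    · exact Or.inl (Or.inr ⟨h, Or.inl h'⟩)
    · rcases h'.2.lt_or_eq with h3 | h3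
      · exact Or.inl (Or.inr ⟨h, Or.inr ⟨h'.1, h3⟩⟩)
      · exact Or.inr (Prod.ext h'.1 h3)

/-- the generator attached to an index pair -/
noncomputable def ee {n : ℕ} (p : Ix n) : U n := E p.1 p.2

/-- the product of the generators over a list -/
noncomputable def mon {n : ℕ} (l : List (Ix n)) : U n := (l.map ee).prod

@[simp] theorem mon_nil {n : ℕ} : mon ([] : List (Ix n)) = 1 := rfl

@[simp] theorem mon_cons {n : ℕ} (p : Ix n) (l : List (Ix n)) : mon (p :: l) = ee p * mon l := by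
  simp [mon]

theorem mon_append {n : ℕ} (l l' : List (Ix n)) : mon (l ++ l') = mon l * mon l' := by
  simp [mon]

/-- a list is sorted -/
abbrev Srt {α : Type} [LE α] (l : List α) : Prop := l.Pairwise (· ≤ ·)

/-- the Poincare-Birkhoff-Witt basis -/
theorem exists_pbw (n : ℕ) : ∃ β : Module.Basis {l : List (Ix n) // Srt l} ℂ (U n),
    ∀ l, β l = mon l.1 := by
  obtain ⟨β, hβ⟩ := Pool.Agent.Y351.LQ.t_PBWB ℂ (gl n) (Ix n)
    (Matrix.stdBasis ℂ (Fin n) (Fin n))
  refine ⟨β, fun l => (hβ l).trans ?_⟩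
  change (List.map (fun i => iota n ((Matrix.stdBasis ℂ (Fin n) (Fin n)) i)) l.1).prod = _
  unfold mon ee E
  congr 1
  refine List.map_congr_left fun p _ => ?_
  exact congrArg (iota n) (Matrix.stdBasis_eq_single (R := ℂ) (i := p.1) (j := p.2))

/-- the PBW basis -/
noncomputable def pbw (n : ℕ) : Module.Basis {l : List (Ix n) // Srt l} ℂ (U n) :=
  (exists_pbw n).choose

theorem pbw_apply {n : ℕ} (l : {l : List (Ix n) // Srt l}) : pbw n l = mon l.1 :=
  (exists_pbw n).choose_spec l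

/-- an element of `U(gl(n))` is a combination of products -/
theorem span_mon (n : ℕ) : Submodule.span ℂ (Set.range (fun l : {l : List (Ix n) // Srt l} =>
    mon l.1)) = ⊤ := by
  rw [← (pbw n).span_eq]
  congr 1
  ext x
  simp [pbw_apply]

/-- induction: a subalgebra containing the generators is everything -/
theorem U_induction {n : ℕ} (S : Subalgebra ℂ (U n)) (h : ∀ i j : Fin n, E i j ∈ S) (u : U n) :
    u ∈ S := by
  have hu : u ∈ Submodule.span ℂ (Set.range (fun l : {l : List (Ix n) // Srt l} => mon l.1)) := by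
    rw [span_mon]; trivial
  have : Submodule.span ℂ (Set.range (fun l : {l : List (Ix n) // Srt l} => mon l.1)) ≤
      Subalgebra.toSubmodule S := by
    rw [Submodule.span_le]
    rintro _ ⟨l, rfl⟩
    refine Subalgebra.list_prod_mem S ?_
    intro x hx
    obtain ⟨p, _, rfl⟩ := List.mem_map.1 hx
    exact h _ _
  exact this hu

end Pool.Agent.R662.GT
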