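import Pool.Agent.R662.GT.Verma

/-!
# Central characters
-/

set_option autoImplicit false

namespace Pool.Agent.R662.GT

attribute [local instance 100] LieRing.ofAssociativeRing

variable {n : ℕ}

/-- the height element -/
noncomputable def HH (n : ℕ) : U n := ∑ i : Fin n, (i.1 : ℂ) • (E i i : U n)

/-- height of a pair -/
def htp (p : Ix n) : ℤ := (p.1.1 : ℤ) - (p.2.1 : ℤ)

/-- height of a list -/
def htL (l : List (Ix n)) : ℤ := (l.map htp).sum

theorem HH_E (a b : Fin n) : HH n * E a b - E a b * HH n =
    ((a.1 : ℂ) - (b.1 : ℂ)) • (E a b : U n) := by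
  unfold HH
  rw [Finset.sum_mul, Finset.mul_sum, ← Finset.sum_sub_distrib]
  have h1 : ∀ i : Fin n, (i.1 : ℂ) • (E i i : U n) * E a b - E a b * (i.1 : ℂ) • (E i i : U n)
      = (if i = a then (a.1 : ℂ) • (E a b : U n) else 0) -
        (if i = b then (b.1 : ℂ) • (E a b : U n) else 0) := by
    intro i
    rw [smul_mul_assoc, mul_smul_comm, ← smul_sub, E_comm]
    by_cases h1 : i = a
    · subst h1
      by_cases h2 : i = b
      · subst h2; simp
      · rw [if_pos rfl, if_neg (fun h => h2 h.symm), if_pos rfl, if_neg h2, sub_zero, sub_zero]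
    · by_cases h2 : i = b
      · subst h2
        rw [if_neg h1, if_pos rfl, if_neg h1, if_pos rfl, zero_sub, zero_sub, smul_neg]
      · rw [if_neg h1, if_neg (fun h => h2 h.symm), if_neg h1, if_neg h2]; simp
  rw [Finset.sum_congr rfl (fun i _ => h1 i), Finset.sum_sub_distrib]
  simp only [Finset.sum_ite_eq', Finset.mem_univ, if_true]
  rw [← sub_smul]

theorem HH_ee (p : Ix n) : HH n * ee p - ee p * HH n = (htp p : ℂ) • ee p := by
  unfold ee htp
  rw [HH_E]
  push_cast
  rfl

theorem HH_mon : ∀ l : List (Ix n), HH n * mon l - mon l * HH n = (htL l : ℂ) • mon l := by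
  intro l
  induction l with
  | nil => simp [htL]
  | cons p l ih =>
    have h1 := HH_ee p
    have : HH n * mon (p :: l) - mon (p :: l) * HH n =
        (HH n * ee p - ee p * HH n) * mon l + ee p * (HH n * mon l - mon l * HH n) := by
      rw [mon_cons]; noncomm_ring
    rw [this, h1, ih, smul_mul_assoc, mul_smul_comm, ← add_smul, mon_cons]
    congr 1
    simp [htL]

theorem htL_pos : ∀ l : List (Ix n), (∀ p ∈ l, Low p) → l ≠ [] → 0 < htL l := by
  intro l
  induction l with
  | nil => intro _ h; exact absurd rfl h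
  | cons p l ih =>
    intro hl _
    have h1 : 0 < htp p := by
      have := hl p (by simp)
      unfold Low at this
      unfold htp
      have : p.2.1 < p.1.1 := this
      omega
    have h2 : 0 ≤ htL l := by
      by_cases h : l = []
      · subst h; simp [htL]
      · exact (ih (fun q hq => hl q (by simp [hq])) h).le
    have : htL (p :: l) = htp p + htL l := by simp [htL]
    omega

theorem HH_hw {M : Type*} [AddCommGroup M] [Module (U n) M] [Module ℂ M] [IsScalarTower ℂ (U n) M]
    {μ : Fin n → ℂ} {w : M} (h : IsHW μ w) : HH n • w = (∑ i : Fin n, (i.1 : ℂ) * μ i) • w := by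
  unfold HH
  rw [Finset.sum_smul, Finset.sum_smul]
  refine Finset.sum_congr rfl fun i _ => ?_
  rw [smul_assoc, h.di, smul_smul]

theorem HH_repr (μ : Fin n → ℂ) (x : Verma μ) (l : LL n) :
    (verB μ).repr (HH n • x) l = ((∑ i : Fin n, (i.1 : ℂ) * μ i) + (htL l.1 : ℂ)) *
      (verB μ).repr x l := by
  have h : ((Finsupp.lapply l).comp ((verB μ).repr : Verma μ →ₗ[ℂ] (LL n →₀ ℂ))).comp
      ((Module.toModuleEnd ℂ (S := U n) (Verma μ)) (HH n)) =
      ((∑ i : Fin n, (i.1 : ℂ) * μ i) + (htL l.1 : ℂ)) •
        ((Finsupp.lapply l).comp ((verB μ).repr : Verma μ →ₗ[ℂ] (LL n →₀ ℂ))) := by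
    refine (verB μ).ext fun l' => ?_
    have e1 : HH n • (verB μ l') = ((∑ i : Fin n, (i.1 : ℂ) * μ i) + (htL l'.1 : ℂ)) • verB μ l' := by
      rw [verB_apply, ← mul_smul]
      have := HH_mon l'.1
      rw [sub_eq_iff_eq_add] at this
      rw [this, add_smul, mul_smul, HH_hw (hwv_isHW μ), smul_comm', smul_assoc, ← add_smul, add_comm]
    simp only [LinearMap.comp_apply, LinearMap.smul_apply, Module.toModuleEnd_apply,
      DistribSMul.toLinearMap_apply]
    rw [e1, map_smul, LinearEquiv.coe_coe, Module.Basis.repr_self]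
    simp only [Finsupp.lapply_apply, map_smul, Finsupp.smul_apply, Finsupp.single_apply,
      smul_eq_mul]
    split_ifs with h
    · rw [h]
    · simp
  exact LinearMap.congr_fun h x

/-- the empty list -/
def nilLL (n : ℕ) : LL n := ⟨[], List.Pairwise.nil, by simp⟩

/-- the central character -/
noncomputable def chi (μ : Fin n → ℂ) : U n →ₗ[ℂ] ℂ := (Finsupp.lapply (nilLL n)).comp (theta μ)

theorem central_hwv (μ : Fin n → ℂ) {z : U n} (hz : z ∈ Subalgebra.center ℂ (U n)) :
    z • hwv μ = chi μ z • hwv μ := by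
  have h1 : HH n • (z • hwv μ) = (∑ i : Fin n, (i.1 : ℂ) * μ i) • (z • hwv μ) := by
    rw [← mul_smul, (Subalgebra.mem_center_iff.1 hz) (HH n), mul_smul, HH_hw (hwv_isHW μ),
      smul_comm']
  have h2 : ∀ l : LL n, l ≠ nilLL n → (verB μ).repr (z • hwv μ) l = 0 := by
    intro l hl
    have h3 := HH_repr μ (z • hwv μ) l
    rw [h1, map_smul, Finsupp.smul_apply, smul_eq_mul, add_mul] at h3
    have h4 : (htL l.1 : ℂ) * (verB μ).repr (z • hwv μ) l = 0 := by
      linear_combination -h3
    rcases mul_eq_zero.1 h4 with h5 | h5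
    · exfalso
      have h6 : 0 < htL l.1 := htL_pos l.1 l.2.2 (fun h => hl (Subtype.ext h))
      have h7 : htL l.1 = 0 := by exact_mod_cast h5
      omega
    · exact h5
  have h3 : (verB μ).repr (z • hwv μ) = Finsupp.single (nilLL n) (chi μ z) := by
    ext l
    by_cases hl : l = nilLL n
    · subst hl
      rw [Finsupp.single_eq_same]
      unfold chi
      rw [LinearMap.comp_apply, Finsupp.lapply_apply, verB_repr, smul_hwv, thetaBar_mk]
    · rw [h2 l hl, Finsupp.single_eq_of_ne hl]
  have h4 := (verB μ).linearCombination_repr (z • hwv μ)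
  rw [h3, Finsupp.linearCombination_single, verB_apply] at h4
  rw [← h4]
  change chi μ z • (mon [] • hwv μ) = _
  rw [mon_nil, one_smul]

theorem chi_mem_J (μ : Fin n → ℂ) {z : U n} (hz : z ∈ Subalgebra.center ℂ (U n)) :
    z - algebraMap ℂ (U n) (chi μ z) ∈ J μ := by
  rw [← Submodule.Quotient.mk_eq_zero, ← smul_hwv, sub_smul, algebraMap_smul, central_hwv μ hz,
    sub_self]

theorem hwv_ne (μ : Fin n → ℂ) : hwv μ ≠ 0 := by
  have := (verB μ).ne_zero (nilLL n)
  rw [verB_apply] at this
  change mon [] • hwv μ ≠ 0 at this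
  rwa [mon_nil, one_smul] at this

section hw

variable {M : Type*} [AddCommGroup M] [Module (U n) M] [Module ℂ M] [IsScalarTower ℂ (U n) M]

theorem central_hw {μ : Fin n → ℂ} {w : M} (h : IsHW μ w) {z : U n}
    (hz : z ∈ Subalgebra.center ℂ (U n)) : z • w = chi μ z • w := by
  have := h.J (chi_mem_J μ hz)
  rwa [sub_smul, algebraMap_smul, sub_eq_zero] at this

/-- the powers of a simple lowering operator on a highest weight vector -/
theorem simple_up {μ : Fin n → ℂ} {v : M} (h : IsHW μ v) {a b : Fin n} (hab : b.1 = a.1 + 1) :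
    ∀ (N : ℕ) (p q : Fin n), p < q → ¬ (p = a ∧ q = b) →
      (E p q : U n) • ((E b a : U n) ^ N • v) = 0 := by
  intro N
  induction N with
  | zero => intro p q hpq _; rw [pow_zero, one_smul, h.up p q hpq]
  | succ N ih =>
    intro p q hpq hne
    have h1 := E_comm p q b a
    rw [sub_eq_iff_eq_add] at h1
    rw [pow_succ', mul_smul, ← mul_smul, h1, add_smul, mul_smul, ih p q hpq hne, smul_zero,
      add_zero, sub_smul]
    have hpq' : p.1 < q.1 := hpq
    have e1 : (if q = b then (E p a : U n) else 0) • ((E b a : U n) ^ N • v) = 0 := by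
      split_ifs with hq
      · refine ih p a ?_ ?_
        · have : p ≠ a := fun hp => hne ⟨hp, hq⟩
          have h3 : p.1 ≠ a.1 := fun h => this (Fin.ext h)
          have h4 : q.1 = b.1 := congrArg Fin.val hq
          exact Fin.lt_def.2 (by omega)
        · rintro ⟨_, h2⟩
          have : a.1 = b.1 := congrArg Fin.val h2
          omega
      · exact zero_smul _ _
    have e2 : (if a = p then (E b q : U n) else 0) • ((E b a : U n) ^ N • v) = 0 := by
      split_ifs with hp
      · refine ih b q ?_ ?_
        · have : q ≠ b := fun hq => hne ⟨hp.symm, hq⟩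
          have h3 : q.1 ≠ b.1 := fun h => this (Fin.ext h)
          have h4 : a.1 = p.1 := congrArg Fin.val hp
          exact Fin.lt_def.2 (by omega)
        · rintro ⟨h2, _⟩
          have : b.1 = a.1 := congrArg Fin.val h2
          omega
      · exact zero_smul _ _
    rw [e1, e2, sub_zero]

theorem simple_diag {μ : Fin n → ℂ} {v : M} (h : IsHW μ v) (a b : Fin n) (hab : b ≠ a) :
    ∀ (N : ℕ) (c : Fin n), (E c c : U n) • ((E b a : U n) ^ N • v) =
      (μ c + (if c = b then (N : ℂ) else 0) - (if c = a then (N : ℂ) else 0)) •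
        ((E b a : U n) ^ N • v) := by
  intro N
  induction N with
  | zero => intro c; rw [pow_zero, one_smul, h.di c]; simp
  | succ N ih =>
    intro c
    have h1 := E_comm c c b a
    rw [sub_eq_iff_eq_add] at h1
    rw [pow_succ', mul_smul, ← mul_smul, h1, add_smul, mul_smul, ih c, smul_comm', sub_smul]
    by_cases h2 : c = b
    · have h3 : ¬ (a = c) := fun h => hab (h2 ▸ h.symm)
      have h4 : ¬ (c = a) := fun h => h3 h.symm
      rw [if_pos h2, if_neg h3, if_pos h2, if_neg h4, if_pos h2, if_neg h4, zero_smul, sub_zero, h2]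
      push_cast
      generalize (E b a : U n) • ((E b a : U n) ^ N • v) = y
      module
    · by_cases h3 : c = a
      · rw [if_neg h2, if_pos h3.symm, if_neg h2, if_pos h3, if_neg h2, if_pos h3, zero_smul,
          zero_sub, h3]
        push_cast
        generalize (E b a : U n) • ((E b a : U n) ^ N • v) = y
        module
      · rw [if_neg h2, if_neg (fun h => h3 h.symm), if_neg h2, if_neg h3, if_neg h2, if_neg h3]
        simp

theorem simple_ef {μ : Fin n → ℂ} {v : M} (h : IsHW μ v) {a b : Fin n} (hab : b.1 = a.1 + 1) :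
    ∀ (N : ℕ), (E a b : U n) • ((E b a : U n) ^ (N + 1) • v) =
      (((N : ℂ) + 1) * (μ a - μ b - N)) • ((E b a : U n) ^ N • v) := by
  have hne : b ≠ a := fun h => by
    have : b.1 = a.1 := congrArg Fin.val h
    omega
  have hlt : a < b := Fin.lt_def.2 (by omega)
  have h1 := E_comm a b b a
  rw [sub_eq_iff_eq_add, if_pos rfl, if_pos rfl] at h1
  intro N
  induction N with
  | zero =>
    rw [zero_add, pow_one, ← mul_smul, h1, add_smul, mul_smul, h.up a b hlt, smul_zero, add_zero,
      sub_smul, h.di, h.di, pow_zero, one_smul]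
    push_cast
    module
  | succ N ih =>
    set y : M := (E b a : U n) ^ (N + 1) • v with hy
    have hy2 : (E b a : U n) • ((E b a : U n) ^ N • v) = y := by
      rw [hy, ← mul_smul, ← pow_succ']
    have hd1 : (E a a : U n) • y = (μ a - ((N + 1 : ℕ) : ℂ)) • y := by
      have := simple_diag h a b hne (N + 1) a
      rw [if_neg hne.symm, if_pos rfl, add_zero] at this
      exact this
    have hd2 : (E b b : U n) • y = (μ b + ((N + 1 : ℕ) : ℂ)) • y := by
      have := simple_diag h a b hne (N + 1) b
      rw [if_neg hne, if_pos rfl, sub_zero] at this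
      exact this
    have h3 : (E b a : U n) ^ (N + 1 + 1) • v = (E b a : U n) • y := by
      rw [hy, ← mul_smul, ← pow_succ']
    rw [h3, ← mul_smul, h1, add_smul, mul_smul, ih, smul_comm', hy2, sub_smul, hd1, hd2]
    push_cast
    clear_value y
    module

end hw

/-- the reflected weight -/
noncomputable def refl (a b : Fin n) (μ : Fin n → ℂ) : Fin n → ℂ :=
  fun c => if c = a then μ b - 1 else if c = b then μ a + 1 else μ c

theorem chi_refl (μ : Fin n → ℂ) {a b : Fin n} (hab : b.1 = a.1 + 1) (k : ℕ)
    (hk : μ a - μ b = k) {z : U n} (hz : z ∈ Subalgebra.center ℂ (U n)) :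
    chi (refl a b μ) z = chi μ z := by
  have hne : b ≠ a := fun h => by
    have : b.1 = a.1 := congrArg Fin.val h
    omega
  set w : Verma μ := (E b a : U n) ^ (k + 1) • hwv μ with hw
  have hHW : IsHW (refl a b μ) w := by
    constructor
    · intro p q hpq
      by_cases h : p = a ∧ q = b
      · rw [h.1, h.2, hw, simple_ef (hwv_isHW μ) hab, hk, sub_self, mul_zero, zero_smul]
      · exact simple_up (hwv_isHW μ) hab _ p q hpq h
    · intro c
      rw [hw, simple_diag (hwv_isHW μ) a b hne]
      congr 1
      unfold refl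
      by_cases h1 : c = a
      · subst h1
        rw [if_neg hne.symm, if_pos rfl, if_pos rfl]
        push_cast
        linear_combination hk
      · by_cases h2 : c = b
        · subst h2
          rw [if_pos rfl, if_neg hne, if_neg hne, if_pos rfl]
          push_cast
          linear_combination -hk
        · rw [if_neg h2, if_neg h1, if_neg h1, if_neg h2]; ring
  have hw0 : w ≠ 0 := by
    have h1 : ∀ N : ℕ, mon (List.replicate N (pr b a)) = (E b a : U n) ^ N := by
      intro N
      induction N with
      | zero => simp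
      | succ N ih => rw [List.replicate_succ, mon_cons, ih, ee_pr, pow_succ']
    have h2 := (verB μ).ne_zero ⟨List.replicate (k + 1) (pr b a),
      List.pairwise_replicate.2 (Or.inr le_rfl), fun p hp => by
        rw [List.eq_of_mem_replicate hp]
        exact Fin.lt_def.2 (by simp [hab])⟩
    rw [verB_apply] at h2
    simp only [h1] at h2
    exact h2
  have h1 := central_hw hHW hz
  have h2 : z • w = chi μ z • w := by
    rw [hw, ← mul_smul, ← (Subalgebra.mem_center_iff.1 hz), mul_smul, central_hwv μ hz, smul_comm']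
  rw [h1] at h2
  exact smul_left_injective ℂ hw0 h2

end Pool.Agent.R662.GT
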