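import Mathlib

/-!
# Linear algebra: generalized weight spaces of a triangular action
-/

set_option autoImplicit false

namespace Pool.Agent.R662.GT.Lin

variable {K : Type} [Field K] {G : Type} [Ring G] [Algebra K G] {V : Type} [AddCommGroup V]
  [Module K V] [Module G V] [IsScalarTower K G V] {A : Type} (B : Module.Basis A K V)
  (R : A → A → Prop) (ch : A → G →ₐ[K] K)

/-- killed by all products of `k` elements of `I`, for some `k` -/
def InS (I : Ideal G) (v : V) : Prop :=
  ∃ k : ℕ, ∀ l : List G, l.length = k → (∀ x ∈ l, x ∈ I) → l.prod • v = 0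

theorem exists_max {A : Type} (R : A → A → Prop) (hirr : ∀ a, ¬ R a a)
    (htr : ∀ a b c, R a b → R b c → R a c) (s : Finset A) (hs : s.Nonempty) :
    ∃ a ∈ s, ∀ c ∈ s, ¬ R a c := by
  have : IsTrans s (fun x y => R y.1 x.1) := ⟨fun a b c h1 h2 => htr _ _ _ h2 h1⟩
  have : Std.Irrefl (fun x y : s => R y.1 x.1) := ⟨fun a h => hirr _ h⟩
  have hwf : WellFounded (fun x y : s => R y.1 x.1) :=
    Finite.wellFounded_of_trans_of_irrefl _
  obtain ⟨a, ha⟩ := hs
  obtain ⟨m, _, hm⟩ := hwf.has_min Set.univ ⟨⟨a, ha⟩, trivial⟩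
  exact ⟨m.1, m.2, fun c hc h => hm ⟨c, hc⟩ trivial h⟩

theorem smul_comm'' (c : K) (u : G) (w : V) : u • (c • w) = c • (u • w) := by
  rw [← algebraMap_smul G c w, ← mul_smul, ← Algebra.commutes, mul_smul, algebraMap_smul]

open Classical in
theorem repr_smul_basis (a : A) (z : G) (c : A) : B.repr (z • B a) c =
    ch a z * (if a = c then 1 else 0) + B.repr (z • B a - ch a z • B a) c := by
  have h1 : z • B a = ch a z • B a + (z • B a - ch a z • B a) := by abel
  conv_lhs => rw [h1]
  rw [map_add, LinearEquiv.map_smul, Module.Basis.repr_self, Finsupp.add_apply,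
    Finsupp.smul_apply, Finsupp.single_apply, smul_eq_mul]

open Classical in
/-- the coordinate of `z • v` at an index which is maximal for `v` -/
theorem repr_smul (htri : ∀ a z, z • B a - ch a z • B a ∈ Submodule.span K (B '' {c | R c a}))
    (hirr : ∀ a, ¬ R a a) (htr : ∀ a b c, R a b → R b c → R a c)
    (a : A) (v : V) (hv : ∀ c, B.repr v c ≠ 0 → ¬ R a c) (z : G) :
    B.repr (z • v) a = ch a z * B.repr v a ∧ ∀ c, B.repr (z • v) c ≠ 0 → ¬ R a c := by
  have hexp : v = ∑ c ∈ (B.repr v).support, B.repr v c • B c := by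
    conv_lhs => rw [← B.linearCombination_repr v, Finsupp.linearCombination_apply, Finsupp.sum]
  have h1 : ∀ c d, B.repr (z • B c) d = ch c z * (if c = d then 1 else 0) +
      B.repr (z • B c - ch c z • B c) d := fun c d => repr_smul_basis B ch c z d
  have h2 : ∀ c d, ¬ R d c → B.repr (z • B c - ch c z • B c) d = 0 := by
    intro c d hd
    have := (B.mem_span_image).1 (htri c z)
    by_contra hne
    exact hd (this (Finsupp.mem_support_iff.2 hne))
  have h3 : ∀ d, B.repr (z • v) d =
      ∑ c ∈ (B.repr v).support, B.repr v c * B.repr (z • B c) d := by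
    intro d
    conv_lhs => rw [hexp, Finset.smul_sum, map_sum, Finsupp.finsetSum_apply]
    refine Finset.sum_congr rfl fun c _ => ?_
    rw [smul_comm'', LinearEquiv.map_smul, Finsupp.smul_apply, smul_eq_mul]
  constructor
  · rw [h3]
    by_cases ha : a ∈ (B.repr v).support
    · rw [Finset.sum_eq_single a]
      · rw [h1, h2 a a (hirr a), if_pos rfl, mul_one, add_zero, mul_comm]
      · intro c hc hca
        rw [h1, h2 c a (hv c (Finsupp.mem_support_iff.1 hc)), if_neg hca, mul_zero, add_zero,
          mul_zero]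
      · intro h; exact absurd ha h
    · rw [Finsupp.notMem_support_iff.1 ha, mul_zero]
      refine Finset.sum_eq_zero fun c hc => ?_
      rw [h1, h2 c a (hv c (Finsupp.mem_support_iff.1 hc)),
        if_neg (by rintro rfl; exact ha hc), mul_zero, add_zero, mul_zero]
  · intro d hd had
    rw [h3] at hd
    obtain ⟨c, hc, hne⟩ := Finset.exists_ne_zero_of_sum_ne_zero hd
    rw [h1] at hne
    have hac : ¬ R a c := hv c (Finsupp.mem_support_iff.1 hc)
    by_cases hcd : c = d
    · exact hac (hcd ▸ had)
    · have : R d c := by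
        by_contra hdc
        rw [h2 c d hdc, if_neg hcd, mul_zero, add_zero, mul_zero] at hne
        exact hne rfl
      exact hac (htr _ _ _ had this)

theorem repr_pow (htri : ∀ a z, z • B a - ch a z • B a ∈ Submodule.span K (B '' {c | R c a}))
    (hirr : ∀ a, ¬ R a a) (htr : ∀ a b c, R a b → R b c → R a c)
    (a : A) (v : V) (hv : ∀ c, B.repr v c ≠ 0 → ¬ R a c) (z : G) (k : ℕ) :
    B.repr (z ^ k • v) a = ch a z ^ k * B.repr v a ∧ ∀ c, B.repr (z ^ k • v) c ≠ 0 → ¬ R a c := by
  induction k with
  | zero => rw [pow_zero, one_smul, pow_zero, one_mul]; exact ⟨rfl, hv⟩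
  | succ k ih =>
    have := repr_smul B R ch htri hirr htr a (z ^ k • v) ih.2 z
    rw [pow_succ', mul_smul]
    exact ⟨by rw [this.1, ih.1, pow_succ']; ring, this.2⟩

theorem rank_le (htri : ∀ a z, z • B a - ch a z • B a ∈ Submodule.span K (B '' {c | R c a}))
    (hirr : ∀ a, ¬ R a a) (htr : ∀ a b c, R a b → R b c → R a c)
    (I : Ideal G) (S : Submodule K V) (hS : ∀ v ∈ S, InS I v) (T : Set A)
    (hT : ∀ a, (∀ z ∈ I, ch a z = 0) → a ∈ T) : Module.rank K S ≤ Cardinal.mk T := by
  have hinj : Function.Injective ((Finsupp.lsubtypeDomain (R := K) (M := K) T).comp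
      ((B.repr : V →ₗ[K] (A →₀ K)).comp S.subtype)) := by
    rw [← LinearMap.ker_eq_bot, LinearMap.ker_eq_bot']
    rintro ⟨v, hvS⟩ hv0
    simp only [Submodule.mk_eq_zero]
    by_contra hne
    have hcoord : ∀ a ∈ T, B.repr v a = 0 := by
      intro a ha
      have := DFunLike.congr_fun hv0 ⟨a, ha⟩
      exact this
    have hsupp : (B.repr v).support.Nonempty := by
      rw [Finsupp.support_nonempty_iff]
      intro h
      exact hne (B.repr.map_eq_zero_iff.1 h)
    obtain ⟨a, ha, hmax⟩ := exists_max R hirr htr _ hsupp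
    have haT : a ∉ T := fun h => Finsupp.mem_support_iff.1 ha (hcoord a h)
    have : ∃ z ∈ I, ch a z ≠ 0 := by
      by_contra hcon
      push Not at hcon
      exact haT (hT a hcon)
    obtain ⟨z, hzI, hz⟩ := this
    obtain ⟨k, hk⟩ := hS v hvS
    have h1 : z ^ k • v = 0 := by
      have := hk (List.replicate k z) (by simp) (fun x hx => by
        rw [List.eq_of_mem_replicate hx]; exact hzI)
      rwa [List.prod_replicate] at this
    have h2 := (repr_pow B R ch htri hirr htr a v
      (fun c hc => hmax c (Finsupp.mem_support_iff.2 hc)) z k).1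
    rw [h1, map_zero, Finsupp.zero_apply] at h2
    have := mul_eq_zero.1 h2.symm
    rcases this with h | h
    · exact pow_ne_zero k hz h
    · exact Finsupp.mem_support_iff.1 ha h
  have := LinearMap.rank_le_of_injective _ hinj
  rwa [rank_finsupp_self'] at this

theorem exists_sep (a0 c : A) (h : ch c ≠ ch a0) : ∃ z : G, ch c z = 0 ∧ ch a0 z = 1 := by
  have : ∃ z, ch c z ≠ ch a0 z := by
    by_contra hcon
    push Not at hcon
    exact h (AlgHom.ext hcon)
  obtain ⟨z, hz⟩ := this
  have hne : ch a0 z - ch c z ≠ 0 := sub_ne_zero.2 (Ne.symm hz)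
  refine ⟨(ch a0 z - ch c z)⁻¹ • (z - algebraMap K G (ch c z)), ?_, ?_⟩
  · rw [map_smul, map_sub, AlgHom.commutes]
    simp
  · rw [map_smul, map_sub, AlgHom.commutes]
    simp only [Algebra.algebraMap_self, RingHom.id_apply, smul_eq_mul]
    exact inv_mul_cancel₀ hne

open Classical in
theorem le_rank (hirr : ∀ a, ¬ R a a) (htr : ∀ a b c, R a b → R b c → R a c)
    (hcomm : ∀ x y : G, x * y = y * x)
    (I : Ideal G) (S : Submodule K V) (hS : ∀ v, InS I v → v ∈ S) (D T0 : Finset A)
    (hD : ∀ a ∈ D, ∀ z : G,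
      z • B a - ch a z • B a ∈ Submodule.span K (B '' {c | c ∈ D ∧ R c a}))
    (a0 : A) (hT0 : ∀ a ∈ T0, ch a = ch a0) (hT0D : ∀ a ∈ T0, a ∈ D)
    (hI : ∀ z ∈ I, ch a0 z = 0) : (T0.card : Cardinal) ≤ Module.rank K S := by
  -- the separating element
  have hsep : ∀ c : A, ∃ z : G, (ch c ≠ ch a0 → ch c z = 0) ∧ ch a0 z = 1 := by
    intro c
    by_cases h : ch c = ch a0
    · exact ⟨1, fun h' => absurd h h', map_one _⟩
    · obtain ⟨z, h1, h2⟩ := exists_sep ch a0 c h
      exact ⟨z, fun _ => h1, h2⟩
  choose zz hz1 hz2 using hsep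
  set p : G := (D.toList.map zz).prod with hp
  have hp1 : ch a0 p = 1 := by
    rw [hp, map_list_prod, List.map_map]
    refine List.prod_eq_one ?_
    intro x hx
    obtain ⟨c, _, rfl⟩ := List.mem_map.1 hx
    exact hz2 c
  have hp0 : ∀ c ∈ D, ch c ≠ ch a0 → ch c p = 0 := by
    intro c hc hne
    rw [hp, map_list_prod, List.prod_eq_zero_iff]
    rw [List.map_map, List.mem_map]
    exact ⟨c, Finset.mem_toList.2 hc, hz1 c hne⟩
  -- the levels
  set lev : A → ℕ := fun c => (D.filter (fun d => R d c)).card with hlev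
  have hlev_lt : ∀ c d, c ∈ D → d ∈ D → R d c → lev d < lev c := by
    intro c d _ hd hdc
    refine Finset.card_lt_card ?_
    rw [Finset.ssubset_iff_of_subset]
    · refine ⟨d, Finset.mem_filter.2 ⟨hd, hdc⟩, ?_⟩
      intro h
      exact hirr _ (Finset.mem_filter.1 h).2
    · intro x hx
      rw [Finset.mem_filter] at hx ⊢
      exact ⟨hx.1, htr _ _ _ hx.2 hdc⟩
  have hlev_bd : ∀ c ∈ D, lev c < D.card := by
    intro c hc
    refine Finset.card_lt_card ?_
    rw [Finset.ssubset_iff_of_subset (Finset.filter_subset _ _)]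
    exact ⟨c, hc, fun h => hirr _ (Finset.mem_filter.1 h).2⟩
  -- strictly triangular products kill
  have hkill : ∀ (l : List G), (∀ x ∈ l, ∀ c ∈ D, ch c x = 0) → ∀ v ∈ Submodule.span K
      (B '' {c | c ∈ D}), l.prod • v ∈ Submodule.span K (B '' {c | c ∈ D ∧ lev c + l.length <
        D.card}) := by
    intro l
    induction l with
    | nil =>
      intro _ v hv
      rw [List.prod_nil, one_smul]
      refine Submodule.span_mono (Set.image_mono ?_) hv
      intro c hc
      exact ⟨hc, by simpa using hlev_bd c hc⟩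
    | cons x l ih =>
      intro hx v hv
      rw [List.prod_cons, mul_smul]
      have h1 := ih (fun y hy => hx y (by simp [hy])) v hv
      generalize l.prod • v = w at h1 ⊢
      induction h1 using Submodule.span_induction with
      | zero => rw [smul_zero]; exact Submodule.zero_mem _
      | add y z _ _ h2 h3 => rw [smul_add]; exact Submodule.add_mem _ h2 h3
      | smul c y _ h2 => rw [smul_comm'']; exact Submodule.smul_mem _ _ h2
      | mem y hy =>
        obtain ⟨c, ⟨hcD, hclev⟩, rfl⟩ := hy
        have h2 := hD c hcD x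
        rw [hx x (by simp) c hcD, zero_smul, sub_zero] at h2
        refine Submodule.span_mono (Set.image_mono ?_) h2
        rintro d ⟨hdD, hdc⟩
        refine ⟨hdD, ?_⟩
        have := hlev_lt c d hcD hdD hdc
        simp only [List.length_cons]
        omega
  set N := D.card with hN
  -- the vectors
  have hmem : ∀ a ∈ T0, p ^ N • B a ∈ S := by
    intro a ha
    refine hS _ ⟨N, fun l hl hlI => ?_⟩
    rw [← mul_smul]
    have h1 : l.prod * p ^ N = (l.map (fun x => x * p)).prod := by
      rw [← hl]
      clear hl hlI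
      induction l with
      | nil => simp
      | cons x l ih =>
        rw [List.prod_cons, List.map_cons, List.prod_cons, ← ih, List.length_cons, pow_succ']
        rw [mul_assoc x, ← mul_assoc l.prod, hcomm l.prod p, mul_assoc p, ← mul_assoc x]
    rw [h1]
    have h2 := hkill (l.map (fun x => x * p)) (by
      intro y hy c hc
      obtain ⟨x, hx, rfl⟩ := List.mem_map.1 hy
      rw [map_mul]
      by_cases h : ch c = ch a0
      · rw [h, hI x (hlI x hx), zero_mul]
      · rw [hp0 c hc h, mul_zero]) (B a) (Submodule.subset_span ⟨a, hT0D a ha, rfl⟩)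
    have h3 : {c | c ∈ D ∧ lev c + (l.map (fun x => x * p)).length < N} = (∅ : Set A) := by
      ext c
      simp only [Set.mem_setOf_eq, Set.mem_empty_iff_false, iff_false, not_and, List.length_map]
      intro _
      omega
    rw [h3, Set.image_empty, Submodule.span_empty, Submodule.mem_bot] at h2
    exact h2
  -- triangularity of `p ^ N`
  have htriD : ∀ (z : G), ∀ a ∈ D, ∀ c, B.repr (z • B a) c =
      ch a z * (if a = c then 1 else 0) + B.repr (z • B a - ch a z • B a) c :=
    fun z a _ c => repr_smul_basis B ch a z c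
  have htriD0 : ∀ (z : G), ∀ a ∈ D, ∀ c, ¬ R c a → B.repr (z • B a - ch a z • B a) c = 0 := by
    intro z a ha c hc
    have := (B.mem_span_image).1 (hD a ha z)
    by_contra hne
    exact hc (this (Finsupp.mem_support_iff.2 hne)).2
  have hlin : LinearIndependent K (fun a : T0 => (⟨p ^ N • B a.1, hmem a.1 a.2⟩ : S)) := by
    rw [Fintype.linearIndependent_iff]
    intro k hk
    by_contra hne
    push Not at hne
    obtain ⟨i, hi⟩ := hne
    obtain ⟨a, ha, hmax⟩ := exists_max (fun x y : T0 => R x.1 y.1) (fun a => hirr _)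
      (fun a b c => htr _ _ _) (Finset.univ.filter (fun a : T0 => k a ≠ 0))
      ⟨i, Finset.mem_filter.2 ⟨Finset.mem_univ _, hi⟩⟩
    have hka : k a ≠ 0 := (Finset.mem_filter.1 ha).2
    have h1 := congrArg (fun w : S => B.repr w.1 a.1) hk
    simp only [Submodule.coe_sum, Submodule.coe_smul, map_sum, map_smul, Finsupp.finsetSum_apply,
      Finsupp.smul_apply, smul_eq_mul, Submodule.coe_zero, map_zero, Finsupp.zero_apply] at h1
    rw [Finset.sum_eq_single a] at h1
    · rw [htriD _ a.1 (hT0D _ a.2), htriD0 _ a.1 (hT0D _ a.2) _ (hirr _), if_pos rfl,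
        hT0 a.1 a.2, map_pow, hp1, one_pow] at h1
      simp only [mul_one, add_zero] at h1
      exact hka h1
    · intro b _ hba
      by_cases hkb : k b = 0
      · rw [hkb, zero_mul]
      · have hnR : ¬ R a.1 b.1 := hmax b (Finset.mem_filter.2 ⟨Finset.mem_univ _, hkb⟩)
        rw [htriD _ b.1 (hT0D _ b.2), htriD0 _ b.1 (hT0D _ b.2) _ hnR,
          if_neg (fun h => hba (Subtype.ext h)), mul_zero, add_zero, mul_zero]
    · intro h; exact absurd (Finset.mem_univ _) h
  have := hlin.cardinal_le_rank
  simpa using this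

end Pool.Agent.R662.GT.Lin
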