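import Pool.Agent.R662.GT.Tri
import Pool.Agent.R662.GT.Lin

/-!
# The characters of the Gelfand-Tsetlin subalgebra on a Verma module
-/

set_option autoImplicit false

namespace Pool.Agent.R662.GT

attribute [local instance 100] LieRing.ofAssociativeRing

variable {n : ℕ}

theorem Phi_Phi {m m' : ℕ} (h : m ≤ m') (h' : m' ≤ n) (x : U m) :
    Phi h' (Phi h x) = Phi (h.trans h') x := by
  have h1 := U_induction (AlgHom.equalizer ((Phi h').comp (Phi h)) (Phi (h.trans h'))) (by
    intro i j
    rw [AlgHom.mem_equalizer]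
    change Phi h' (Phi h (E i j)) = _
    rw [Phi_E, Phi_E, Phi_E]
    rfl) x
  exact h1

theorem gen_comm {m m' : ℕ} (h : m ≤ m') (h' : m' ≤ n) (c : U m) {c' : U m'}
    (hc' : c' ∈ Subalgebra.center ℂ (U m')) :
    Phi (h.trans h') c * Phi h' c' = Phi h' c' * Phi (h.trans h') c := by
  rw [← Phi_Phi h h', ← map_mul, ← map_mul, Subalgebra.mem_center_iff.1 hc']

/-- the generators -/
def GamS (n : ℕ) : Set (U n) := {z | ∃ (m : ℕ) (hmn : m ≤ n), 1 ≤ m ∧
    ∃ c ∈ Subalgebra.center ℂ (U m), z = Phi hmn c}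

theorem Gam_eq : Gam n = Algebra.adjoin ℂ (GamS n) := rfl

theorem GamS_comm {x y : U n} (hx : x ∈ GamS n) (hy : y ∈ GamS n) : x * y = y * x := by
  obtain ⟨m, hm, _, c, hc, rfl⟩ := hx
  obtain ⟨m', hm', _, c', hc', rfl⟩ := hy
  rcases le_total m m' with h | h
  · exact gen_comm h hm' c hc'
  · exact (gen_comm h hm c' hc).symm

theorem Gam_comm {x y : U n} (hx : x ∈ Gam n) (hy : y ∈ Gam n) : x * y = y * x := by
  have h1 : Gam n ≤ Subalgebra.centralizer ℂ (GamS n) := by
    rw [Gam_eq, Algebra.adjoin_le_iff]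
    intro z hz
    exact (Subalgebra.mem_centralizer_iff ℂ).2 fun g hg => GamS_comm hg hz
  have h2 : Gam n ≤ Subalgebra.centralizer ℂ {x} := by
    rw [Gam_eq, Algebra.adjoin_le_iff]
    intro z hz
    refine (Subalgebra.mem_centralizer_iff ℂ).2 fun g hg => ?_
    rw [Set.mem_singleton_iff.1 hg]
    exact ((Subalgebra.mem_centralizer_iff ℂ).1 (h1 hx) z hz).symm
  exact (Subalgebra.mem_centralizer_iff ℂ).1 (h2 hy) x rfl

theorem HH_Phi {m : ℕ} (hmn : m ≤ n) {c : U m} (hc : c ∈ Subalgebra.center ℂ (U m)) :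
    HH n * Phi hmn c = Phi hmn c * HH n := by
  unfold HH
  rw [Finset.sum_mul, Finset.mul_sum]
  refine Finset.sum_congr rfl fun i _ => ?_
  rw [smul_mul_assoc, mul_smul_comm]
  congr 1
  by_cases hi : i.1 < m
  · have h1 : (E i i : U n) = Phi hmn (E ⟨i.1, hi⟩ ⟨i.1, hi⟩) := by rw [Phi_E]; rfl
    rw [h1, ← map_mul, ← map_mul, Subalgebra.mem_center_iff.1 hc]
  · have h1 := U_induction ((Subalgebra.centralizer ℂ {(E i i : U n)}).comap (Phi hmn)) (by
      intro j k
      rw [Subalgebra.mem_comap, Subalgebra.mem_centralizer_iff]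
      intro g hg
      rw [Set.mem_singleton_iff.1 hg, Phi_E, ← sub_eq_zero, E_comm, if_neg, if_neg, sub_zero]
      · intro h
        apply hi
        rw [← h]
        exact k.2
      · intro h
        apply hi
        rw [h]
        exact j.2) c
    rw [Subalgebra.mem_comap, Subalgebra.mem_centralizer_iff] at h1
    exact h1 _ rfl

theorem HH_Gam {z : U n} (hz : z ∈ Gam n) : HH n * z = z * HH n := by
  have h1 : Gam n ≤ Subalgebra.centralizer ℂ {HH n} := by
    rw [Gam_eq, Algebra.adjoin_le_iff]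
    rintro _ ⟨m, hm, _, c, hc, rfl⟩
    refine (Subalgebra.mem_centralizer_iff ℂ).2 fun g hg => ?_
    rw [Set.mem_singleton_iff.1 hg]
    exact HH_Phi hm hc
  exact (Subalgebra.mem_centralizer_iff ℂ).1 (h1 hz) _ rfl

section Tr

variable (lam : Fin n → ℂ)

theorem Lo_mono {c a : List (Ix n)} (h : Rm 0 c a) : Lo lam 0 c ≤ Lo lam 0 a :=
  Submodule.span_mono (Set.image_mono fun _ hd => Rm_trans hd h)

theorem Lo_le {m : ℕ} (a : List (Ix n)) : Lo lam m a ≤ Lo lam 0 a :=
  Submodule.span_mono (Set.image_mono fun _ hd => Rm_zero hd)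

/-- being triangular -/
def IsTri (z : U n) : Prop :=
  ∀ a : LL n, ∃ s : ℂ, z • verB lam a - s • verB lam a ∈ Lo lam 0 a.1

theorem IsTri.lo {z : U n} (hz : IsTri lam z) (a : List (Ix n)) {x : Verma lam}
    (hx : x ∈ Lo lam 0 a) : z • x ∈ Lo lam 0 a := by
  unfold Lo at hx
  induction hx using Submodule.span_induction with
  | zero => rw [smul_zero]; exact Submodule.zero_mem _
  | add y z _ _ h4 h5 => rw [smul_add]; exact Submodule.add_mem _ h4 h5
  | smul c y _ h4 => rw [smul_comm']; exact Submodule.smul_mem _ _ h4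
  | mem y hy =>
    obtain ⟨c, hc, rfl⟩ := hy
    obtain ⟨s, hs⟩ := hz c
    have h1 : z • verB lam c = (z • verB lam c - s • verB lam c) + s • verB lam c := by abel
    rw [h1]
    exact Submodule.add_mem _ (Lo_mono lam hc hs)
      (Submodule.smul_mem _ _ (Submodule.subset_span ⟨c, hc, rfl⟩))

/-- the triangular elements -/
def Tr : Subalgebra ℂ (U n) where
  carrier := {z | IsTri lam z}
  mul_mem' := by
    intro x y hx hy a
    obtain ⟨s, hs⟩ := hx a
    obtain ⟨t, ht⟩ := hy a
    refine ⟨t * s, ?_⟩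
    have h1 : (x * y) • verB lam a - (t * s) • verB lam a =
        x • (y • verB lam a - t • verB lam a) + t • (x • verB lam a - s • verB lam a) := by
      rw [smul_sub, smul_sub, smul_comm', mul_smul, mul_smul]; abel
    rw [h1]
    exact Submodule.add_mem _ (IsTri.lo lam hx _ ht) (Submodule.smul_mem _ _ hs)
  add_mem' := by
    intro x y hx hy a
    obtain ⟨s, hs⟩ := hx a
    obtain ⟨t, ht⟩ := hy a
    refine ⟨s + t, ?_⟩
    have h1 : (x + y) • verB lam a - (s + t) • verB lam a =
        (x • verB lam a - s • verB lam a) + (y • verB lam a - t • verB lam a) := by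
      rw [add_smul, add_smul]; abel
    rw [h1]
    exact Submodule.add_mem _ hs ht
  algebraMap_mem' := by
    intro r a
    refine ⟨r, ?_⟩
    rw [algebraMap_smul, sub_self]
    exact Submodule.zero_mem _

theorem Gam_le_Tr : Gam n ≤ Tr lam := by
  rw [Gam_eq, Algebra.adjoin_le_iff]
  rintro _ ⟨m, hm, _, c, hc, rfl⟩ a
  exact ⟨_, Lo_le lam _ (tri_gen lam hm a hc)⟩

/-- the coordinate -/
noncomputable def co (a : LL n) : U n →ₗ[ℂ] ℂ :=
  ((Finsupp.lapply a).comp ((verB lam).repr : Verma lam →ₗ[ℂ] (LL n →₀ ℂ))).comp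
    ((LinearMap.toSpanSingleton (U n) (Verma lam) (verB lam a)).restrictScalars ℂ)

theorem co_apply (a : LL n) (z : U n) : co lam a z = (verB lam).repr (z • verB lam a) a := rfl

theorem Lo_coord {a : LL n} {x : Verma lam} (hx : x ∈ Lo lam 0 a.1) : (verB lam).repr x a = 0 := by
  have := ((verB lam).mem_span_image).1 hx
  by_contra hne
  exact Rm_irrefl 0 a.1 (this (Finsupp.mem_support_iff.2 hne))

theorem repr_csmul (s : ℂ) (x : Verma lam) (c : LL n) :
    (verB lam).repr (s • x) c = s * (verB lam).repr x c := by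
  rw [LinearEquiv.map_smul, Finsupp.smul_apply, smul_eq_mul]

theorem co_eq {a : LL n} {z : U n} {s : ℂ}
    (h : z • verB lam a - s • verB lam a ∈ Lo lam 0 a.1) : co lam a z = s := by
  have h1 := Lo_coord lam h
  rw [map_sub, Finsupp.sub_apply, repr_csmul, Module.Basis.repr_self,
    Finsupp.single_eq_same, mul_one, sub_eq_zero] at h1
  exact h1

theorem co_spec {a : LL n} {z : U n} (hz : z ∈ Tr lam) :
    z • verB lam a - co lam a z • verB lam a ∈ Lo lam 0 a.1 := by
  obtain ⟨s, hs⟩ := hz a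
  rw [co_eq lam hs]
  exact hs

/-- the characters of the Gelfand-Tsetlin subalgebra -/
noncomputable def ch (a : LL n) : Gam n →ₐ[ℂ] ℂ :=
  AlgHom.ofLinearMap ((co lam a).comp (Gam n).val.toLinearMap)
    (by
      change co lam a 1 = 1
      refine co_eq lam ?_
      rw [one_smul, one_smul, sub_self]
      exact Submodule.zero_mem _)
    (by
      intro x y
      change co lam a (x.1 * y.1) = co lam a x.1 * co lam a y.1
      have hx := Gam_le_Tr lam x.2
      have hy := Gam_le_Tr lam y.2
      refine co_eq lam ?_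
      have h1 : (x.1 * y.1) • verB lam a - (co lam a x.1 * co lam a y.1) • verB lam a =
          x.1 • (y.1 • verB lam a - co lam a y.1 • verB lam a) +
            co lam a y.1 • (x.1 • verB lam a - co lam a x.1 • verB lam a) := by
        rw [smul_sub, smul_sub, smul_comm', mul_smul, mul_comm, mul_smul]; abel
      rw [h1]
      exact Submodule.add_mem _ (IsTri.lo lam hx _ (co_spec lam hy))
        (Submodule.smul_mem _ _ (co_spec lam hx)))

theorem ch_apply (a : LL n) (z : Gam n) : ch lam a z = co lam a z.1 := rfl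

theorem ch_gen (a : LL n) {m : ℕ} (hmn : m ≤ n) {c : U m} (hc : c ∈ Subalgebra.center ℂ (U m))
    (hz : Phi hmn c ∈ Gam n) : ch lam a ⟨Phi hmn c, hz⟩ = chi (wt lam hmn a.1) c := by
  rw [ch_apply]
  exact co_eq lam (Lo_le lam _ (tri_gen lam hmn a hc))

theorem ch_eq_iff (a b : LL n) : ch lam a = ch lam b ↔ ∀ (m : ℕ) (hmn : m ≤ n), 1 ≤ m →
    ∀ c ∈ Subalgebra.center ℂ (U m), chi (wt lam hmn a.1) c = chi (wt lam hmn b.1) c := by
  constructor
  · intro h m hmn hm c hc
    have hz : Phi hmn c ∈ Gam n := Algebra.subset_adjoin ⟨m, hmn, hm, c, hc, rfl⟩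
    rw [← ch_gen lam a hmn hc hz, ← ch_gen lam b hmn hc hz, h]
  · intro h
    refine AlgHom.adjoin_ext ?_
    rintro x ⟨m, hmn, hm, c, hc, rfl⟩
    have hz : Phi hmn c ∈ Gam n := Algebra.subset_adjoin ⟨m, hmn, hm, c, hc, rfl⟩
    have h1 := ch_gen lam a hmn hc hz
    have h2 := ch_gen lam b hmn hc hz
    have h3 := h m hmn hm c hc
    rw [← h1, ← h2] at h3
    exact h3

/-- triangularity, in the form used -/
theorem ch_tri (a : LL n) (z : Gam n) : z • verB lam a - ch lam a z • verB lam a ∈
    Submodule.span ℂ (verB lam '' {c : LL n | Rm 0 c.1 a.1}) :=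
  co_spec lam (Gam_le_Tr lam z.2)

theorem ht_repr (a : LL n) {z : U n} (hz : z ∈ Gam n) (c : LL n)
    (hc : (verB lam).repr (z • verB lam a) c ≠ 0) : htL c.1 = htL a.1 := by
  have h1 : HH n • (z • verB lam a) =
      ((∑ i : Fin n, (i.1 : ℂ) * lam i) + (htL a.1 : ℂ)) • (z • verB lam a) := by
    rw [← mul_smul, HH_Gam hz, mul_smul]
    have e1 : HH n • (verB lam a) =
        ((∑ i : Fin n, (i.1 : ℂ) * lam i) + (htL a.1 : ℂ)) • verB lam a := by
      rw [verB_apply, ← mul_smul]
      have := HH_mon a.1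
      rw [sub_eq_iff_eq_add] at this
      rw [this, add_smul, mul_smul, HH_hw (hwv_isHW lam), smul_comm', smul_assoc, ← add_smul,
        add_comm]
    rw [e1, smul_comm']
  have h2 := HH_repr lam (z • verB lam a) c
  rw [h1, map_smul, Finsupp.smul_apply, smul_eq_mul] at h2
  have h3 := mul_right_cancel₀ hc h2
  have h4 := add_left_cancel h3
  exact_mod_cast h4.symm

theorem ch_tri_ht (a : LL n) (z : Gam n) : z • verB lam a - ch lam a z • verB lam a ∈
    Submodule.span ℂ (verB lam '' {c : LL n | htL c.1 = htL a.1 ∧ Rm 0 c.1 a.1}) := by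
  rw [(verB lam).mem_span_image]
  intro c hc
  have h1 := ((verB lam).mem_span_image).1 (ch_tri lam a z) hc
  refine ⟨?_, h1⟩
  have hca : c ≠ a := fun h => Rm_irrefl 0 a.1 (h ▸ h1)
  have h2 := Finsupp.mem_support_iff.1 hc
  rw [map_sub, Finsupp.sub_apply, repr_csmul, Module.Basis.repr_self,
    Finsupp.single_eq_of_ne hca, mul_zero, sub_zero] at h2
  exact ht_repr lam a z.2 c h2

end Tr

/-- finiteness -/
theorem finite_ht (h : ℤ) : {c : LL n | htL c.1 = h}.Finite := by
  have h1 : ∀ l : List (Ix n), (∀ p ∈ l, Low p) → (l.length : ℤ) ≤ htL l := by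
    intro l
    induction l with
    | nil => intro _; simp [htL]
    | cons p l ih =>
      intro hl
      have h1 : 0 < htp p := by
        have := hl p (by simp)
        unfold Low at this
        unfold htp
        have : p.2.1 < p.1.1 := this
        omega
      have h2 := ih (fun q hq => hl q (by simp [hq]))
      have : htL (p :: l) = htp p + htL l := by simp [htL]
      rw [List.length_cons]
      push_cast
      omega
  refine Set.Finite.of_finite_image (f := Subtype.val) ?_ Subtype.val_injective.injOn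
  have : Finite (Ix n) := inferInstance
  refine (List.finite_length_le (Ix n) h.toNat).subset ?_
  rintro _ ⟨c, hc, rfl⟩
  have h2 := h1 c.1 c.2.2
  have h3 : htL c.1 = h := hc
  change c.1.length ≤ h.toNat
  omega

end Pool.Agent.R662.GT
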