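import Pool.Agent.R662.GT.Sep

/-!
# The central character determines the multiset of the shifted weights
-/

set_option autoImplicit false

namespace Pool.Agent.R662.GT

attribute [local instance 100] LieRing.ofAssociativeRing

variable {n : ℕ}

/-- the shifted weight -/
noncomputable def ll (μ : Fin n → ℂ) (p : Fin n) : ℂ := μ p + ((n : ℂ) - 1 - (p.1 : ℂ))

theorem aa_succ (μ : Fin n → ℂ) (k : ℕ) (p : Fin n) :
    aa μ (k + 1) p = ll μ p * aa μ k p - ∑ r : Fin n, if p < r then aa μ k r else 0 := by
  have h1 : (∑ r : Fin n, if p < r then aa μ k p - aa μ k r else 0) =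
      (∑ r : Fin n, if p < r then aa μ k p else 0) - ∑ r : Fin n, if p < r then aa μ k r else 0 := by
    rw [← Finset.sum_sub_distrib]
    refine Finset.sum_congr rfl fun r _ => ?_
    split_ifs <;> simp
  have h2 : (∑ r : Fin n, if p < r then aa μ k p else 0) =
      ((n : ℂ) - 1 - (p.1 : ℂ)) * aa μ k p := by
    rw [← Finset.sum_filter, Finset.sum_const]
    have : (Finset.univ.filter (fun r : Fin n => p < r)) = Finset.Ioi p := by
      ext; simp
    rw [this, Fin.card_Ioi, nsmul_eq_mul]
    have hp := p.2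
    have : ((n - 1 - p.1 : ℕ) : ℂ) = (n : ℂ) - 1 - (p.1 : ℂ) := by
      rw [Nat.cast_sub (by omega), Nat.cast_sub (by omega)]; simp
    rw [this]
  conv_lhs => unfold aa
  rw [h1, h2]
  unfold ll
  ring

/-- the generating series of `aa μ k p` -/
noncomputable def AS (μ : Fin n → ℂ) (p : Fin n) : PowerSeries ℂ := PowerSeries.mk fun k => aa μ k p

/-- the partial sums -/
noncomputable def BS (μ : Fin n → ℂ) (t : ℕ) : PowerSeries ℂ :=
  ∑ r : Fin n, if t ≤ r.1 then AS μ r else 0

theorem AS_eq (μ : Fin n → ℂ) (p : Fin n) : AS μ p = 1 + PowerSeries.X *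
    (PowerSeries.C (ll μ p) * AS μ p - BS μ (p.1 + 1)) := by
  ext k
  cases k with
  | zero =>
    simp [AS, aa]
  | succ k =>
    rw [map_add, PowerSeries.coeff_succ_X_mul, map_sub, PowerSeries.coeff_C_mul]
    unfold AS BS
    rw [PowerSeries.coeff_mk, PowerSeries.coeff_mk, aa_succ, map_sum]
    have h0 : (PowerSeries.coeff (k + 1)) (1 : PowerSeries ℂ) = 0 := by
      rw [PowerSeries.coeff_one, if_neg (Nat.succ_ne_zero k)]
    rw [h0, zero_add]
    congr 1
    refine Finset.sum_congr rfl fun r _ => ?_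
    by_cases h : p < r
    · rw [if_pos h, if_pos (show p.1 + 1 ≤ r.1 from h)]
      unfold AS
      rw [PowerSeries.coeff_mk]
    · rw [if_neg h, if_neg (show ¬ p.1 + 1 ≤ r.1 from h), map_zero]

theorem BS_succ (μ : Fin n → ℂ) (p : Fin n) : BS μ p.1 = AS μ p + BS μ (p.1 + 1) := by
  unfold BS
  have : ∀ r : Fin n, (if p.1 ≤ r.1 then AS μ r else 0) = (if r = p then AS μ r else 0) +
      (if p.1 + 1 ≤ r.1 then AS μ r else 0) := by
    intro r
    rcases lt_trichotomy r.1 p.1 with h | h | h
    · rw [if_neg (by omega), if_neg (fun h' => by rw [h'] at h; omega), if_neg (by omega), add_zero]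
    · rw [if_pos (by omega), if_pos (Fin.ext h), if_neg (by omega), add_zero]
    · rw [if_pos (by omega), if_neg (fun h' => by rw [h'] at h; omega), if_pos (by omega), zero_add]
  rw [Finset.sum_congr rfl fun r _ => this r, Finset.sum_add_distrib]
  simp

theorem BS_rec (μ : Fin n → ℂ) (p : Fin n) :
    (1 - PowerSeries.C (ll μ p) * PowerSeries.X) * (1 - PowerSeries.X * BS μ p.1) =
    (1 - PowerSeries.C (ll μ p + 1) * PowerSeries.X) * (1 - PowerSeries.X * BS μ (p.1 + 1)) := by
  have h1 := AS_eq μ p
  rw [BS_succ, map_add, map_one]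
  linear_combination (-PowerSeries.X) * h1

theorem BS_prod (μ : Fin n → ℂ) : ∀ t : ℕ, t ≤ n →
    (∏ r : Fin n, if n - t ≤ r.1 then (1 - PowerSeries.C (ll μ r) * PowerSeries.X) else 1) *
      (1 - PowerSeries.X * BS μ (n - t)) =
    ∏ r : Fin n, if n - t ≤ r.1 then (1 - PowerSeries.C (ll μ r + 1) * PowerSeries.X) else 1 := by
  intro t
  induction t with
  | zero =>
    intro _
    have h : ∀ r : Fin n, ¬ (n - 0 ≤ r.1) := fun r => by have := r.2; omega
    have h2 : BS μ (n - 0) = 0 := by
      unfold BS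
      exact Finset.sum_eq_zero fun r _ => if_neg (h r)
    rw [h2]
    simp only [h, if_false]
    simp
  | succ t ih =>
    intro ht
    have ih := ih (by omega)
    set p : Fin n := ⟨n - (t + 1), by omega⟩ with hp
    have hp1 : p.1 + 1 = n - t := by simp only [hp]; omega
    have key : ∀ f : Fin n → PowerSeries ℂ, (∏ r : Fin n, if n - (t + 1) ≤ r.1 then f r else 1) =
        f p * ∏ r : Fin n, if n - t ≤ r.1 then f r else 1 := by
      intro f
      have : ∀ r : Fin n, (if n - (t + 1) ≤ r.1 then f r else 1) = (if r = p then f r else 1) *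
          (if n - t ≤ r.1 then f r else 1) := by
        intro r
        have hp2 : p.1 = n - (t + 1) := rfl
        rcases lt_trichotomy r.1 p.1 with h | h | h
        · rw [if_neg (by omega), if_neg (fun h' => by rw [h'] at h; omega), if_neg (by omega),
            mul_one]
        · rw [if_pos (by omega), if_pos (Fin.ext h), if_neg (by omega), mul_one]
        · rw [if_pos (by omega), if_neg (fun h' => by rw [h'] at h; omega), if_pos (by omega),
            one_mul]
      rw [Finset.prod_congr rfl fun r _ => this r, Finset.prod_mul_distrib]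
      simp
    rw [key, key]
    have h1 := BS_rec μ p
    rw [hp1] at h1
    have h2 : BS μ p.1 = BS μ (n - (t + 1)) := rfl
    rw [h2] at h1
    calc (1 - PowerSeries.C (ll μ p) * PowerSeries.X) *
          (∏ r : Fin n, if n - t ≤ r.1 then (1 - PowerSeries.C (ll μ r) * PowerSeries.X) else 1) *
          (1 - PowerSeries.X * BS μ (n - (t + 1)))
        = (∏ r : Fin n, if n - t ≤ r.1 then (1 - PowerSeries.C (ll μ r) * PowerSeries.X) else 1) *
          ((1 - PowerSeries.C (ll μ p) * PowerSeries.X) *
          (1 - PowerSeries.X * BS μ (n - (t + 1)))) := by ring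
      _ = (1 - PowerSeries.C (ll μ p + 1) * PowerSeries.X) *
          ((∏ r : Fin n, if n - t ≤ r.1 then (1 - PowerSeries.C (ll μ r) * PowerSeries.X) else 1) *
          (1 - PowerSeries.X * BS μ (n - t))) := by rw [h1]; ring
      _ = _ := by rw [ih]

theorem BS_zero (μ : Fin n → ℂ) :
    (∏ r : Fin n, (1 - PowerSeries.C (ll μ r) * PowerSeries.X)) * (1 - PowerSeries.X * BS μ 0) =
    ∏ r : Fin n, (1 - PowerSeries.C (ll μ r + 1) * PowerSeries.X) := by
  have := BS_prod μ n le_rfl
  simpa using this

theorem BS_zero_eq (μ : Fin n → ℂ) : BS μ 0 = PowerSeries.mk fun k => ∑ p : Fin n, aa μ k p := by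
  ext k
  unfold BS AS
  simp [map_sum]

/-- the identity of the products -/
theorem prod_eq {μ μ' : Fin n → ℂ} (h : ∀ k, ∑ p : Fin n, aa μ k p = ∑ p : Fin n, aa μ' k p) :
    (∏ r : Fin n, (1 - PowerSeries.C (ll μ r + 1) * PowerSeries.X : PowerSeries ℂ)) *
      (∏ r : Fin n, (1 - PowerSeries.C (ll μ' r) * PowerSeries.X)) =
    (∏ r : Fin n, (1 - PowerSeries.C (ll μ' r + 1) * PowerSeries.X)) *
      (∏ r : Fin n, (1 - PowerSeries.C (ll μ r) * PowerSeries.X)) := by
  have h1 : BS μ 0 = BS μ' 0 := by
    rw [BS_zero_eq, BS_zero_eq]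
    congr 1
    funext k
    exact h k
  rw [← BS_zero μ, ← BS_zero μ', h1]
  ring

open Polynomial in
theorem poly_of_series {a b : Fin n → ℂ} {c d : Fin n → ℂ}
    (h : (∏ r : Fin n, (1 - PowerSeries.C (a r) * PowerSeries.X : PowerSeries ℂ)) *
      (∏ r : Fin n, (1 - PowerSeries.C (b r) * PowerSeries.X)) =
    (∏ r : Fin n, (1 - PowerSeries.C (c r) * PowerSeries.X)) *
      (∏ r : Fin n, (1 - PowerSeries.C (d r) * PowerSeries.X))) :
    (Finset.univ.val.map a) + (Finset.univ.val.map b) =
      (Finset.univ.val.map c) + (Finset.univ.val.map d) := by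
  have h1 : (∏ r : Fin n, (1 - C (a r) * X : ℂ[X])) * (∏ r : Fin n, (1 - C (b r) * X)) =
      (∏ r : Fin n, (1 - C (c r) * X)) * (∏ r : Fin n, (1 - C (d r) * X)) := by
    have hinj : Function.Injective (Polynomial.coeToPowerSeries.ringHom : ℂ[X] →+* PowerSeries ℂ) :=
      Polynomial.coe_injective ℂ
    apply hinj
    simp only [map_mul, map_prod, map_sub, map_one, Polynomial.coeToPowerSeries.ringHom_apply,
      Polynomial.coe_C, Polynomial.coe_X]
    exact h
  have h2 : ∀ x : ℂ, x ≠ 0 → (∏ r : Fin n, (x - a r)) * (∏ r : Fin n, (x - b r)) =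
      (∏ r : Fin n, (x - c r)) * (∏ r : Fin n, (x - d r)) := by
    intro x hx
    have h3 := congrArg (Polynomial.eval x⁻¹) h1
    simp only [eval_mul, eval_prod, eval_sub, eval_one, eval_C, eval_X] at h3
    have h4 : ∀ f : Fin n → ℂ, ∏ r : Fin n, (x - f r) = x ^ n * ∏ r : Fin n, (1 - f r * x⁻¹) := by
      intro f
      have : x ^ n = ∏ _r : Fin n, x := by simp
      rw [this, ← Finset.prod_mul_distrib]
      refine Finset.prod_congr rfl fun r _ => ?_
      field_simp
    rw [h4 a, h4 b, h4 c, h4 d]
    linear_combination (x ^ n * x ^ n) * h3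
  have h3 : (∏ r : Fin n, (X - C (a r) : ℂ[X])) * (∏ r : Fin n, (X - C (b r))) =
      (∏ r : Fin n, (X - C (c r))) * (∏ r : Fin n, (X - C (d r))) := by
    refine Polynomial.eq_of_infinite_eval_eq _ _ ?_
    refine Set.Infinite.mono (s := {x : ℂ | x ≠ 0}) ?_ ?_
    · intro x hx
      simp only [Set.mem_setOf_eq, eval_mul, eval_prod, eval_sub, eval_C, eval_X]
      exact h2 x hx
    · have : ({x : ℂ | x ≠ 0}) = ({0} : Set ℂ)ᶜ := by ext; simp
      rw [this]
      exact (Set.finite_singleton 0).infinite_compl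
  have h4 : ∀ f g : Fin n → ℂ, (∏ r : Fin n, (X - C (f r) : ℂ[X])) * (∏ r : Fin n, (X - C (g r))) =
      (((Finset.univ.val.map f) + (Finset.univ.val.map g)).map (fun z => (X - C z : ℂ[X]))).prod := by
    intro f g
    rw [Multiset.map_add, Multiset.prod_add, Multiset.map_map, Multiset.map_map]
    rfl
  rw [h4, h4] at h3
  have h5 := congrArg Polynomial.roots h3
  rwa [Polynomial.roots_multiset_prod_X_sub_C, Polynomial.roots_multiset_prod_X_sub_C] at h5

theorem shift_multiset {A B : Multiset ℂ} (h : A.map (· + 1) + B = B.map (· + 1) + A) : A = B := by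
  classical
  have hc : ∀ (M : Multiset ℂ) (x : ℂ), (M.map (· + 1)).count (x + 1) = M.count x := by
    intro M x
    exact Multiset.count_map_eq_count' (· + 1) M (add_left_injective 1) x
  have h1 : ∀ x : ℂ, (A.count x : ℤ) - B.count x = (A.count (x + 1) : ℤ) - B.count (x + 1) := by
    intro x
    have := congrArg (Multiset.count (x + 1)) h
    rw [Multiset.count_add, Multiset.count_add, hc, hc] at this
    omega
  have h2 : ∀ (x : ℂ) (k : ℕ), (A.count x : ℤ) - B.count x =
      (A.count (x + k) : ℤ) - B.count (x + k) := by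
    intro x k
    induction k with
    | zero => simp
    | succ k ih =>
      rw [ih, h1 (x + k)]
      push_cast
      rw [add_assoc]
  ext x
  by_contra hne
  have h3 : ∀ k : ℕ, x + k ∈ (A + B).toFinset := by
    intro k
    rw [Multiset.mem_toFinset, Multiset.mem_add]
    by_contra hnot
    push Not at hnot
    have h4 := h2 x k
    rw [Multiset.count_eq_zero_of_notMem hnot.1, Multiset.count_eq_zero_of_notMem hnot.2] at h4
    apply hne
    push_cast at h4
    omega
  have hinf : Set.Infinite (Set.range fun k : ℕ => x + (k : ℂ)) :=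
    Set.infinite_range_of_injective (fun a b hab => by
      have : (a : ℂ) = b := add_left_cancel hab
      exact_mod_cast this)
  exact hinf ((A + B).toFinset.finite_toSet.subset (by
    rintro _ ⟨k, rfl⟩
    exact h3 k))

/-- Separation of the central characters. -/
theorem chi_sep {μ μ' : Fin n → ℂ}
    (h : ∀ z ∈ Subalgebra.center ℂ (U n), chi μ z = chi μ' z) :
    (Finset.univ.val.map fun p : Fin n => μ p - (p.1 : ℂ)) =
      (Finset.univ.val.map fun p : Fin n => μ' p - (p.1 : ℂ)) := by
  have h1 : ∀ k, ∑ p : Fin n, aa μ k p = ∑ p : Fin n, aa μ' k p := by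
    intro k
    rw [← chi_Cas, ← chi_Cas]
    exact h _ (Cas_center k)
  have h2 := poly_of_series (prod_eq h1)
  have h3 : (Finset.univ.val.map (ll μ)) = (Finset.univ.val.map (ll μ')) := by
    refine shift_multiset ?_
    rw [Multiset.map_map, Multiset.map_map]
    exact h2
  have h4 : ∀ ν : Fin n → ℂ, (Finset.univ.val.map fun p : Fin n => ν p - (p.1 : ℂ)) =
      (Finset.univ.val.map (ll ν)).map (fun z => z - ((n : ℂ) - 1)) := by
    intro ν
    rw [Multiset.map_map]
    refine Multiset.map_congr rfl fun p _ => ?_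
    simp only [Function.comp_apply, ll]
    ring
  rw [h4, h4, h3]

end Pool.Agent.R662.GT
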