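import Pool.Agent.R662.GT.Char
import Pool.Agent.R662.GT.Sep2

/-!
# Counting the tableaux with a given character
-/

set_option autoImplicit false

namespace Pool.Agent.R662.GT

attribute [local instance 100] LieRing.ofAssociativeRing

variable {n : ℕ}

theorem exists_perm {m : ℕ} {f g : Fin m → ℕ}
    (h : (Finset.univ.val.map f : Multiset ℕ) = Finset.univ.val.map g) :
    ∃ σ : Equiv.Perm (Fin m), ∀ i, g (σ i) = f i := by
  have e : ∀ c : ℕ, Nonempty ({a // f a = c} ≃ {b // g b = c}) := by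
    intro c
    refine Fintype.card_eq.1 ?_
    have h1 := congrArg (Multiset.count c) h
    rw [Multiset.count_map, Multiset.count_map] at h1
    rw [Fintype.card_subtype, Fintype.card_subtype]
    have h2 : ∀ f : Fin m → ℕ, (Finset.univ.filter (fun a => f a = c)).card =
        Multiset.card (Multiset.filter (fun a => c = f a) Finset.univ.val) := by
      intro f
      change _ = Multiset.card ((Finset.univ.filter (fun a => c = f a)).val)
      rw [Finset.card_val]
      congr 1
      ext a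
      simp [eq_comm]
    rw [h2, h2]
    exact h1
  exact ⟨Equiv.ofFiberEquiv (fun c => (e c).some), fun i => Equiv.ofFiberEquiv_map _ i⟩

/-- the weights with constant shifted entries -/
noncomputable def Wt (κ : ℂ) {m : ℕ} (s : Fin m → ℕ) : Fin m → ℂ :=
  fun i => κ + (i.1 : ℂ) - (s i : ℂ)

theorem Wt_swap_lt (κ : ℂ) {m : ℕ} (s : Fin m → ℕ) {a b : Fin m} (hab : b.1 = a.1 + 1)
    (h : s a < s b) {z : U m} (hz : z ∈ Subalgebra.center ℂ (U m)) :
    chi (Wt κ (s ∘ Equiv.swap a b)) z = chi (Wt κ s) z := by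
  have hne : a ≠ b := fun h => by
    have : a.1 = b.1 := congrArg Fin.val h
    omega
  have hk : Wt κ s a - Wt κ s b = ((s b - s a - 1 : ℕ) : ℂ) := by
    unfold Wt
    rw [Nat.cast_sub (by omega), Nat.cast_sub (by omega), hab]
    push_cast
    ring
  rw [← chi_refl (Wt κ s) hab _ hk hz]
  congr 2
  funext c
  unfold Wt refl
  simp only [Function.comp_apply]
  by_cases h1 : c = a
  · subst h1
    rw [if_pos rfl, Equiv.swap_apply_left, hab]
    push_cast
    ring
  · by_cases h2 : c = b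
    · subst h2
      rw [if_neg h1, if_pos rfl, Equiv.swap_apply_right, hab]
      push_cast
      ring
    · rw [if_neg h1, if_neg h2, Equiv.swap_apply_of_ne_of_ne h1 h2]

theorem Wt_swap (κ : ℂ) {m : ℕ} (s : Fin m → ℕ) {a b : Fin m} (hab : b.1 = a.1 + 1)
    {z : U m} (hz : z ∈ Subalgebra.center ℂ (U m)) :
    chi (Wt κ (s ∘ Equiv.swap a b)) z = chi (Wt κ s) z := by
  rcases lt_trichotomy (s a) (s b) with h | h | h
  · exact Wt_swap_lt κ s hab h hz
  · congr 2
    have : s ∘ Equiv.swap a b = s := by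
      funext c
      simp only [Function.comp_apply]
      by_cases h1 : c = a
      · subst h1; rw [Equiv.swap_apply_left, h]
      · by_cases h2 : c = b
        · subst h2; rw [Equiv.swap_apply_right, h]
        · rw [Equiv.swap_apply_of_ne_of_ne h1 h2]
    rw [this]
  · have h1 := Wt_swap_lt κ (s ∘ Equiv.swap a b) hab (by
      simp only [Function.comp_apply, Equiv.swap_apply_left, Equiv.swap_apply_right]
      exact h) hz
    have h2 : (s ∘ Equiv.swap a b) ∘ Equiv.swap a b = s := by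
      funext c
      simp
    rw [h2] at h1
    exact h1.symm

theorem Wt_perm (κ : ℂ) {m : ℕ} {z : U m} (hz : z ∈ Subalgebra.center ℂ (U m))
    (σ : Equiv.Perm (Fin m)) (s : Fin m → ℕ) : chi (Wt κ (s ∘ σ)) z = chi (Wt κ s) z := by
  cases m with
  | zero =>
    have : s ∘ σ = s := Subsingleton.elim _ _
    rw [this]
  | succ k =>
    have h1 : σ ∈ Submonoid.closure (Set.range fun i : Fin k => Equiv.swap i.castSucc i.succ) := by
      rw [Equiv.Perm.mclosure_swap_castSucc_succ]; trivial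
    induction h1 using Submonoid.closure_induction generalizing s with
    | mem x hx =>
      obtain ⟨i, rfl⟩ := hx
      exact Wt_swap κ s (by simp) hz
    | one => rfl
    | mul x y _ _ h1 h2 =>
      have : s ∘ (x * y) = (s ∘ x) ∘ y := rfl
      rw [this, h2, h1]

theorem wt_negRho {m : ℕ} (hmn : m ≤ n) (L : List (Ix n)) :
    wt (negRho n) hmn L = Wt (-(((n : ℂ) - 1) / 2)) (fun i : Fin m => cnt L m i.1) := by
  funext i
  unfold wt Wt negRho
  rw [Fin.val_castLE]
  ring

theorem cnt_top (L : List (Ix n)) (i : ℕ) : cnt L n i = 0 := by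
  unfold cnt
  rw [List.countP_eq_zero]
  intro p _
  have := p.1.2
  simp only [decide_eq_true_eq]
  omega

theorem ch_eq_perm (a b : LL n) : ch (negRho n) a = ch (negRho n) b ↔
    ∀ m : ℕ, m < n → ∃ σ : Equiv.Perm (Fin m), ∀ i : Fin m, cnt b.1 m (σ i).1 = cnt a.1 m i.1 := by
  rw [ch_eq_iff]
  constructor
  · intro h m hm
    rcases Nat.eq_zero_or_pos m with h0 | h0
    · subst h0
      exact ⟨1, fun i => i.elim0⟩
    · have h1 := chi_sep (h m hm.le h0)
      rw [wt_negRho, wt_negRho] at h1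
      refine exists_perm (f := fun i : Fin m => cnt a.1 m i.1) (g := fun i : Fin m =>
        cnt b.1 m i.1) ?_
      have hinj : Function.Injective (fun k : ℕ => -(((n : ℂ) - 1) / 2) - (k : ℂ)) := by
        intro x y hxy
        have : (x : ℂ) = y := by linear_combination -hxy
        exact_mod_cast this
      refine Multiset.map_injective hinj ?_
      rw [Multiset.map_map, Multiset.map_map]
      convert h1 using 2
      · simp only [Function.comp_apply, Wt]
        ring
      · simp only [Function.comp_apply, Wt]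
        ring
  · intro h m hmn hm c hc
    rw [wt_negRho, wt_negRho]
    rcases hmn.lt_or_eq with h1 | h1
    · obtain ⟨σ, hσ⟩ := h m h1
      rw [← Wt_perm _ hc σ (fun i : Fin m => cnt b.1 m i.1)]
      congr 2
      congr 1
      funext i
      exact (hσ i).symm
    · subst h1
      congr 2
      congr 1
      funext i
      rw [cnt_top, cnt_top]

theorem cnt_succ (L : List (Ix n)) (r c : Fin n) :
    cnt L r.1 c.1 = cnt L (r.1 + 1) c.1 + L.count (pr r c) := by
  induction L with
  | nil => rfl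
  | cons p L ih =>
    rw [cnt_cons, cnt_cons, ih, List.count_cons]
    have h1 : (p == pr r c) = decide (p.1.1 = r.1 ∧ p.2.1 = c.1) := by
      rw [beq_eq_decide]
      congr 1
      apply propext
      constructor
      · rintro rfl; exact ⟨rfl, rfl⟩
      · rintro ⟨h1, h2⟩; exact Prod.ext (Fin.ext h1) (Fin.ext h2)
    rw [h1]
    by_cases h2 : p.2.1 = c.1
    · rcases lt_trichotomy r.1 p.1.1 with h3 | h3 | h3
      · rw [if_pos ⟨h3.le, h2⟩, if_pos ⟨h3, h2⟩, if_neg (by simp; omega)]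
        omega
      · rw [if_pos ⟨h3.le, h2⟩, if_neg (by omega), if_pos (by simp [h3, h2])]
        omega
      · rw [if_neg (by omega), if_neg (by omega), if_neg (by simp; omega)]
        omega
    · rw [if_neg (fun h => h2 h.2), if_neg (fun h => h2 h.2), if_neg (by simp [h2])]
      omega

/-- the counts determine the list -/
theorem LL_ext {a b : LL n} (h : ∀ m : ℕ, m < n → ∀ i : ℕ, i < m → cnt a.1 m i = cnt b.1 m i) :
    a = b := by
  apply Subtype.ext
  have hperm : a.1.Perm b.1 := by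
    rw [List.perm_iff_count]
    intro p
    by_cases hp : Low p
    · have h1 := cnt_succ a.1 p.1 p.2
      have h2 := cnt_succ b.1 p.1 p.2
      have h3 : cnt a.1 (p.1.1 + 1) p.2.1 = cnt b.1 (p.1.1 + 1) p.2.1 := by
        have h4 := p.1.2
        rcases Nat.lt_or_ge (p.1.1 + 1) n with h5 | h5
        · exact h _ h5 _ (by have : p.2.1 < p.1.1 := hp; omega)
        · have h6 : p.1.1 + 1 = n := by omega
          rw [h6, cnt_top, cnt_top]
      have h4 := h p.1.1 p.1.2 p.2.1 hp
      have h5 : pr p.1 p.2 = p := rfl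
      rw [h5] at h1 h2
      omega
    · rw [List.count_eq_zero.2 (fun h' => hp (a.2.2 p h')),
        List.count_eq_zero.2 (fun h' => hp (b.2.2 p h'))]
  exact hperm.eq_of_pairwise (fun x y _ _ h1 h2 => le_antisymm h1 h2) a.2.1 b.2.1

/-- the list with given multiplicities -/
noncomputable def mkM (x : Ix n → ℕ) : Multiset (Ix n) :=
  ∑ p ∈ Finset.univ.filter (fun p : Ix n => Low p), x p • ({p} : Multiset (Ix n))

theorem count_mkM (x : Ix n → ℕ) (p : Ix n) : (mkM x).count p = if Low p then x p else 0 := by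
  unfold mkM
  rw [Multiset.count_sum']
  simp only [Multiset.count_nsmul, Multiset.count_singleton, mul_ite, mul_one, mul_zero]
  rw [Finset.sum_ite_eq]
  simp

/-- the element of `LL` with given multiplicities -/
noncomputable def mkL (x : Ix n → ℕ) : LL n :=
  ⟨(mkM x).sort (· ≤ ·), Multiset.pairwise_sort _ _, fun p hp => by
    have h1 : p ∈ mkM x := (Multiset.mem_sort _).1 hp
    by_contra h
    have h2 := count_mkM x p
    rw [if_neg h] at h2
    exact absurd h1 (Multiset.count_eq_zero.1 h2)⟩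

theorem count_mkL (x : Ix n → ℕ) (p : Ix n) (hp : Low p) : (mkL x).1.count p = x p := by
  have h1 := count_mkM x p
  rw [if_pos hp] at h1
  rw [← h1]
  conv_rhs => rw [← Multiset.sort_eq (mkM x) (· ≤ ·)]
  rw [Multiset.coe_count]
  rfl

/-- the prescribed counts -/
def tt (σ : ∀ m : Fin n, Equiv.Perm (Fin m.1)) (m i : ℕ) : ℕ :=
  if h : m < n ∧ i < m then n * (n - 1 - m) + (σ ⟨m, h.1⟩ ⟨i, h.2⟩).1 else 0

theorem tt_pos (σ : ∀ m : Fin n, Equiv.Perm (Fin m.1)) {m i : ℕ} (h1 : m < n) (h2 : i < m) :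
    tt σ m i = n * (n - 1 - m) + (σ ⟨m, h1⟩ ⟨i, h2⟩).1 := by
  unfold tt
  rw [dif_pos ⟨h1, h2⟩]

theorem tt_anti (σ : ∀ m : Fin n, Equiv.Perm (Fin m.1)) {m i : ℕ} (h1 : m < n) (h2 : i < m) :
    tt σ (m + 1) i ≤ tt σ m i := by
  rw [tt_pos σ h1 h2]
  rcases Nat.lt_or_ge (m + 1) n with h3 | h3
  · rw [tt_pos σ h3 (by omega)]
    have hn0 : 0 < n := by omega
    have hi1 : i < m + 1 := by omega
    have h4 := (σ ⟨m + 1, h3⟩ ⟨i, hi1⟩).2
    simp only at h4
    obtain ⟨k, hk⟩ : ∃ k, n - 1 - m = k + 1 := ⟨n - 1 - m - 1, by omega⟩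
    have h5 : n - 1 - (m + 1) = k := by omega
    rw [hk, h5, Nat.mul_succ]
    omega
  · unfold tt
    rw [dif_neg (by omega)]
    exact Nat.zero_le _

/-- the list with the prescribed counts -/
noncomputable def aS (σ : ∀ m : Fin n, Equiv.Perm (Fin m.1)) : LL n :=
  mkL (fun p => tt σ p.1.1 p.2.1 - tt σ (p.1.1 + 1) p.2.1)

theorem cnt_aS (σ : ∀ m : Fin n, Equiv.Perm (Fin m.1)) (i : ℕ) : ∀ (k m : ℕ), m + k = n → i < m →
    cnt (aS σ).1 m i = tt σ m i := by
  intro k
  induction k with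
  | zero =>
    intro m hm hi
    rw [add_zero] at hm
    subst hm
    rw [cnt_top]
    unfold tt
    rw [dif_neg (by omega)]
  | succ k ih =>
    intro m hm hi
    have hmn : m < n := by omega
    have h1 := cnt_succ (aS σ).1 ⟨m, hmn⟩ ⟨i, hi.trans hmn⟩
    simp only at h1
    rw [h1, ih (m + 1) (by omega) (by omega)]
    have h2 := count_mkL (fun p : Ix n => tt σ p.1.1 p.2.1 - tt σ (p.1.1 + 1) p.2.1)
      (pr ⟨m, hmn⟩ ⟨i, hi.trans hmn⟩) (Fin.lt_def.2 hi)
    unfold aS
    rw [h2]
    simp only [pr_fst, pr_snd]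
    have := tt_anti σ hmn hi
    omega

theorem cnt_aS' (σ : ∀ m : Fin n, Equiv.Perm (Fin m.1)) {m i : ℕ} (h1 : m < n) (h2 : i < m) :
    cnt (aS σ).1 m i = n * (n - 1 - m) + (σ ⟨m, h1⟩ ⟨i, h2⟩).1 := by
  rw [cnt_aS σ i (n - m) m (by omega) h2, tt_pos σ h1 h2]

theorem aS_injective : Function.Injective (aS (n := n)) := by
  intro σ τ h
  funext m
  ext i
  have h1 := cnt_aS' σ m.2 i.2
  have h2 := cnt_aS' τ m.2 i.2
  rw [h] at h1
  have h3 : (σ m i).1 = (τ m i).1 := by
    have h4 : (σ ⟨m.1, m.2⟩ ⟨i.1, i.2⟩).1 = (σ m i).1 := rfl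
    have h5 : (τ ⟨m.1, m.2⟩ ⟨i.1, i.2⟩).1 = (τ m i).1 := rfl
    omega
  exact h3

theorem ch_aS (σ : ∀ m : Fin n, Equiv.Perm (Fin m.1)) :
    ch (negRho n) (aS σ) = ch (negRho n) (aS (n := n) (fun _ => 1)) := by
  rw [ch_eq_perm]
  intro m hm
  refine ⟨σ ⟨m, hm⟩, fun i => ?_⟩
  rw [cnt_aS' _ hm i.2, cnt_aS' _ hm (σ ⟨m, hm⟩ i).2]
  rfl

theorem card_perms (n : ℕ) : Fintype.card (∀ m : Fin n, Equiv.Perm (Fin m.1)) =
    ∏ k ∈ Finset.range n, k.factorial := by
  rw [Fintype.card_pi, Finset.prod_range]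
  refine Finset.prod_congr rfl fun m _ => ?_
  rw [Fintype.card_perm, Fintype.card_fin]

theorem card_le (a : LL n) (T : Set (LL n)) (hT : ∀ b ∈ T, ch (negRho n) b = ch (negRho n) a) :
    Cardinal.mk T ≤ ((∏ k ∈ Finset.range n, k.factorial : ℕ) : Cardinal) := by
  have h1 : ∀ b : T, ∀ m : Fin n, ∃ σ : Equiv.Perm (Fin m.1), ∀ i : Fin m.1,
      cnt a.1 m.1 (σ i).1 = cnt b.1.1 m.1 i.1 := by
    intro b m
    exact (ch_eq_perm b.1 a).1 (hT b.1 b.2) m.1 m.2
  choose F hF using h1
  have hinj : Function.Injective F := by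
    intro b b' h
    apply Subtype.ext
    refine LL_ext fun m hm i hi => ?_
    have h2 := hF b ⟨m, hm⟩ ⟨i, hi⟩
    have h3 := hF b' ⟨m, hm⟩ ⟨i, hi⟩
    rw [h] at h2
    rw [← h2, ← h3]
  have h2 := Cardinal.mk_le_of_injective hinj
  rw [Cardinal.mk_fintype (∀ m : Fin n, Equiv.Perm (Fin m.1)), card_perms] at h2
  exact h2

end Pool.Agent.R662.GT
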