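import Mathlib

/-!
# Gelfand-Tsetlin degree of a Verma module: definitions
-/

set_option autoImplicit false

namespace Pool.Agent.R662.GT

attribute [local instance 100] LieRing.ofAssociativeRing

/-- The Lie algebra `gl(n)` of complex `n × n` matrices. -/
abbrev gl (n : ℕ) : Type := Matrix (Fin n) (Fin n) ℂ

/-- The universal enveloping algebra of `gl(n)`. -/
abbrev U (n : ℕ) : Type := UniversalEnvelopingAlgebra ℂ (gl n)

noncomputable instance instRingU (n : ℕ) : Ring (U n) := inferInstance

noncomputable instance instAlgebraU (n : ℕ) : Algebra ℂ (U n) := inferInstance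

/-- The canonical map `gl(n) → U(gl(n))`. -/
noncomputable def iota (n : ℕ) : gl n →ₗ⁅ℂ⁆ U n := UniversalEnvelopingAlgebra.ι ℂ

/-- The matrix unit `E_{ij}` in the enveloping algebra. -/
noncomputable def E {n : ℕ} (i j : Fin n) : U n := iota n (Matrix.single i j (1 : ℂ))

/-- The upper left corner embedding of `m × m` matrices into `n × n` matrices. -/
def cornerFun {m n : ℕ} (A : gl m) : gl n := fun i j =>
  if h : i.1 < m ∧ j.1 < m then A ⟨i.1, h.1⟩ ⟨j.1, h.2⟩ else 0

theorem cornerFun_eq {m n : ℕ} (A : gl m) :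
    (cornerFun A : gl n) = (Matrix.of fun (i : Fin n) (k : Fin m) => if i.1 = k.1 then (1 : ℂ) else 0)
      * A * (Matrix.of fun (k : Fin m) (i : Fin n) => if i.1 = k.1 then (1 : ℂ) else 0) := by
  ext i j
  simp only [cornerFun, Matrix.mul_apply, Matrix.of_apply, ite_mul, one_mul, zero_mul, mul_ite,
    mul_one, mul_zero]
  split_ifs with h
  · rw [Finset.sum_eq_single (⟨j.1, h.2⟩ : Fin m)]
    · simp only [if_true]
      rw [Finset.sum_eq_single (⟨i.1, h.1⟩ : Fin m)]
      · simp
      · intro b _ hb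
        rw [if_neg]
        intro hib
        exact hb (Fin.ext hib.symm)
      · simp
    · intro b _ hb
      rw [if_neg]
      intro hib
      exact hb (Fin.ext hib.symm)
    · simp
  · symm
    refine Finset.sum_eq_zero fun b _ => ?_
    split_ifs with hb
    · refine Finset.sum_eq_zero fun c _ => ?_
      rw [if_neg]
      intro hc
      exact h ⟨hc ▸ c.2, hb ▸ b.2⟩
    · rfl

theorem corner_mul {m n : ℕ} (hmn : m ≤ n) (A B : gl m) :
    (cornerFun (A * B) : gl n) = cornerFun A * cornerFun B := by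
  have hP : (Matrix.of fun (k : Fin m) (i : Fin n) => if i.1 = k.1 then (1 : ℂ) else 0) *
      (Matrix.of fun (i : Fin n) (k : Fin m) => if i.1 = k.1 then (1 : ℂ) else 0) = 1 := by
    ext i j
    simp only [Matrix.mul_apply, Matrix.of_apply, ite_mul, one_mul, zero_mul, Matrix.one_apply]
    rw [Finset.sum_eq_single (⟨i.1, i.2.trans_le hmn⟩ : Fin n)]
    · simp [Fin.ext_iff]
    · intro b _ hb
      rw [if_neg]
      intro hib
      exact hb (Fin.ext hib)
    · simp
  simp only [cornerFun_eq]
  simp only [Matrix.mul_assoc]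
  congr 2
  rw [← Matrix.mul_assoc _ _ (B * _), hP, Matrix.one_mul]

/-- The upper left corner embedding `gl(m) → gl(n)`, `m ≤ n`, as a homomorphism of Lie algebras. -/
def corner {m n : ℕ} (hmn : m ≤ n) : gl m →ₗ⁅ℂ⁆ gl n where
  toFun A := cornerFun A
  map_add' A B := by
    ext i j
    simp only [cornerFun, Matrix.add_apply]
    split_ifs <;> simp
  map_smul' c A := by
    ext i j
    simp only [cornerFun, Matrix.smul_apply, RingHom.id_apply]
    split_ifs <;> simp
  map_lie' {A B} := by
    have hsub : ∀ A B : gl m, (cornerFun (A - B) : gl n) = cornerFun A - cornerFun B := by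
      intro A B
      ext i j
      simp only [cornerFun, Matrix.sub_apply]
      split_ifs <;> simp
    change (cornerFun ⁅A, B⁆ : gl n) = ⁅(cornerFun A : gl n), cornerFun B⁆
    rw [Ring.lie_def, Ring.lie_def, hsub, corner_mul hmn, corner_mul hmn]

/-- The composition `gl(m) → gl(n) → U(gl(n))` of the corner embedding and the canonical map. -/
noncomputable def cornerU {m n : ℕ} (hmn : m ≤ n) : gl m →ₗ⁅ℂ⁆ U n := (iota n).comp (corner hmn)

/-- The homomorphism `U(gl(m)) → U(gl(n))` induced by the corner embedding. -/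
noncomputable def Phi {m n : ℕ} (hmn : m ≤ n) : U m →ₐ[ℂ] U n :=
  (UniversalEnvelopingAlgebra.lift ℂ).toFun (cornerU hmn)

/-- The Gelfand-Tsetlin subalgebra of `U(gl(n))`: it is generated by the images `Z_m` of the
centers of `U(gl(m))`, `1 ≤ m ≤ n`. -/
noncomputable def Gam (n : ℕ) : Subalgebra ℂ (U n) :=
  Algebra.adjoin ℂ {z | ∃ (m : ℕ) (hmn : m ≤ n), 1 ≤ m ∧
    ∃ c ∈ Subalgebra.center ℂ (U m), z = Phi hmn c}

/-- The left ideal of `U(gl(n))` generated by the `E_{ij}`, `i < j`, and the
`E_{ii} - lam i`. -/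
noncomputable def J {n : ℕ} (lam : Fin n → ℂ) : Submodule (U n) (U n) :=
  Submodule.span (U n) ({x | ∃ i j : Fin n, i < j ∧ x = E i j} ∪
    {x | ∃ i : Fin n, x = E i i - algebraMap ℂ (U n) (lam i)})

/-- The Verma module `M(lam)` as the quotient of `U(gl(n))` by the left ideal generated by the
`E_{ij}`, `i < j`, and the `E_{ii} - lam i`. -/
abbrev Verma {n : ℕ} (lam : Fin n → ℂ) : Type := U n ⧸ J lam

/-- The weight `-rho`, `rho = ((n-1)/2, (n-3)/2, ..., (1-n)/2)`. -/
noncomputable def negRho (n : ℕ) : Fin n → ℂ := fun i => -(((n : ℂ) - 1) / 2 - (i.1 : ℂ))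

/-- For an ideal `I` of the Gelfand-Tsetlin subalgebra: the vector `v` is killed by all products
of `k` elements of `I`, that is, by `I ^ k`. -/
def Kills {n : ℕ} {M : Type} [AddCommGroup M] [Module (U n) M] (I : Ideal (Gam n)) (k : ℕ)
    (v : M) : Prop :=
  ∀ l : List (Gam n), l.length = k → (∀ x ∈ l, x ∈ I) → (l.prod : U n) • v = 0

section kills

variable {n : ℕ} {M : Type} [AddCommGroup M] [Module (U n) M] (I : Ideal (Gam n))

theorem kills_zero : ∃ k : ℕ, Kills I k (0 : M) := ⟨0, fun _ _ _ => smul_zero _⟩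

theorem kills_mono {k k' : ℕ} {v : M} (hv : Kills I k v) : Kills I (k' + k) v := by
  intro l hl hI
  rw [← List.take_append_drop k' l, List.prod_append, MulMemClass.coe_mul, mul_smul,
    hv (l.drop k') (by simp [hl]) (fun x hx => hI x (List.mem_of_mem_drop hx)), smul_zero]

theorem kills_add {v w : M} (hv : ∃ k : ℕ, Kills I k v) (hw : ∃ k : ℕ, Kills I k w) :
    ∃ k : ℕ, Kills I k (v + w) := by
  obtain ⟨k, hk⟩ := hv
  obtain ⟨k', hk'⟩ := hw
  refine ⟨k' + k, fun l hl hI => ?_⟩
  have h1 := kills_mono I (k' := k') hk l hl hI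
  have h2 := kills_mono I (k' := k) hk' l (by omega) hI
  rw [smul_add, h1, h2, add_zero]

theorem kills_smul [Module ℂ M] [IsScalarTower ℂ (U n) M] (c : ℂ) {v : M}
    (hv : ∃ k : ℕ, Kills I k v) : ∃ k : ℕ, Kills I k (c • v) := by
  obtain ⟨k, hk⟩ := hv
  refine ⟨k, fun l hl hI => ?_⟩
  rw [← algebraMap_smul (U n) c v, ← mul_smul, ← Algebra.commutes, mul_smul, hk l hl hI,
    smul_zero]

end kills

/-- For an ideal `I` of the Gelfand-Tsetlin subalgebra, the space of the vectors of a module `M`
killed by a power of `I`, that is, by all products of `k` elements of `I` for some `k`. -/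
def gtSpace {n : ℕ} (M : Type) [AddCommGroup M] [Module (U n) M]
    [Module ℂ M] [IsScalarTower ℂ (U n) M] (I : Ideal (Gam n)) : Submodule ℂ M where
  carrier := {v | ∃ k : ℕ, Kills I k v}
  zero_mem' := kills_zero I
  add_mem' := kills_add I
  smul_mem' := fun c _ => kills_smul I c

/-- The Gelfand-Tsetlin degree of a `gl(n)`-module: the supremum of the dimensions of the spaces
`M_m` over all maximal ideals `m` of the Gelfand-Tsetlin subalgebra. -/
noncomputable def gtDeg {n : ℕ} (M : Type) [AddCommGroup M] [Module (U n) M]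
    [Module ℂ M] [IsScalarTower ℂ (U n) M] : Cardinal :=
  ⨆ I : {I : Ideal (Gam n) // I.IsMaximal}, Module.rank ℂ (gtSpace M I.1)

end Pool.Agent.R662.GT
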