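import Pool.Agent.R662.GT.Count

/-!
# The Gelfand-Tsetlin degree of `M(-rho)`
-/

set_option autoImplicit false

namespace Pool.Agent.R662.GT

attribute [local instance 100] LieRing.ofAssociativeRing

theorem gtDeg_le (n : ℕ) : gtDeg (n := n) (Verma (negRho n)) ≤
    ((∏ k ∈ Finset.range n, k.factorial : ℕ) : Cardinal) := by
  unfold gtDeg
  refine ciSup_le' fun I => ?_
  set T : Set (LL n) := {a | ∀ z ∈ I.1, ch (negRho n) a z = 0} with hT
  have h1 : Module.rank ℂ (gtSpace (Verma (negRho n)) I.1) ≤ Cardinal.mk T := by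
    refine Lin.rank_le (G := Gam n) (verB (negRho n)) (fun c a => Rm 0 c.1 a.1) (ch (negRho n))
      (ch_tri (negRho n)) (fun a => Rm_irrefl 0 a.1) (fun a b c h1 h2 => Rm_trans h1 h2) I.1
      (gtSpace (Verma (negRho n)) I.1) ?_ T ?_
    · intro v hv
      obtain ⟨k, hk⟩ := hv
      exact ⟨k, fun l hl hI => hk l hl hI⟩
    · intro a ha
      exact ha
  refine h1.trans ?_
  rcases T.eq_empty_or_nonempty with h0 | ⟨a, ha⟩
  · rw [h0]
    simp
  · refine card_le a T ?_
    intro b hb
    have hker : ∀ a ∈ T, RingHom.ker (ch (negRho n) a) = I.1 := by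
      intro a ha
      have hmax : (RingHom.ker (ch (negRho n) a)).IsMaximal :=
        RingHom.ker_isMaximal_of_surjective _ (fun c => ⟨algebraMap ℂ _ c, by simp⟩)
      have hle : I.1 ≤ RingHom.ker (ch (negRho n) a) := fun z hz => ha z hz
      exact (I.2.eq_of_le hmax.ne_top hle).symm
    have h2 : RingHom.ker (ch (negRho n) b) = RingHom.ker (ch (negRho n) a) := by
      rw [hker b hb, hker a ha]
    refine AlgHom.ext fun z => ?_
    have h3 : z - algebraMap ℂ (Gam n) (ch (negRho n) a z) ∈ RingHom.ker (ch (negRho n) a) := by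
      rw [RingHom.mem_ker, map_sub, AlgHom.commutes]
      simp
    rw [← h2, RingHom.mem_ker, map_sub, AlgHom.commutes, sub_eq_zero] at h3
    exact h3

theorem le_gtDeg (n : ℕ) : ((∏ k ∈ Finset.range n, k.factorial : ℕ) : Cardinal) ≤
    gtDeg (n := n) (Verma (negRho n)) := by
  classical
  set a0 : LL n := aS (n := n) (fun _ => 1) with ha0
  set I : Ideal (Gam n) := RingHom.ker (ch (negRho n) a0) with hI
  have hmax : I.IsMaximal :=
    RingHom.ker_isMaximal_of_surjective _ (fun c => ⟨algebraMap ℂ _ c, by simp⟩)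
  set T0 : Finset (LL n) := Finset.univ.image (aS (n := n)) with hT0
  set D : Finset (LL n) := T0.biUnion (fun a => (finite_ht (n := n) (htL a.1)).toFinset) with hD
  have hcard : T0.card = ∏ k ∈ Finset.range n, k.factorial := by
    rw [hT0, Finset.card_image_of_injective _ aS_injective, Finset.card_univ, card_perms]
  have hDmem : ∀ c, c ∈ D ↔ ∃ a ∈ T0, htL c.1 = htL a.1 := by
    intro c
    rw [hD, Finset.mem_biUnion]
    simp only [Set.Finite.mem_toFinset]
    exact Iff.rfl
  have h1 : (T0.card : Cardinal) ≤ Module.rank ℂ (gtSpace (Verma (negRho n)) I) := by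
    refine Lin.le_rank (G := Gam n) (verB (negRho n)) (fun c a => Rm 0 c.1 a.1) (ch (negRho n))
      (fun a => Rm_irrefl 0 a.1) (fun a b c h1 h2 => Rm_trans h1 h2)
      (fun x y => Subtype.ext (Gam_comm x.2 y.2)) I
      (gtSpace (Verma (negRho n)) I) ?_ D T0 ?_ a0 ?_ ?_ ?_
    · intro v hv
      obtain ⟨k, hk⟩ := hv
      exact ⟨k, fun l hl hI => hk l hl hI⟩
    · intro a ha z
      refine Submodule.span_mono (Set.image_mono ?_) (ch_tri_ht (negRho n) a z)
      rintro c ⟨hc1, hc2⟩
      refine ⟨?_, hc2⟩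
      obtain ⟨a', ha', h⟩ := (hDmem a).1 ha
      exact (hDmem c).2 ⟨a', ha', hc1.trans h⟩
    · intro a ha
      obtain ⟨σ, _, rfl⟩ := Finset.mem_image.1 ha
      exact ch_aS σ
    · intro a ha
      exact (hDmem a).2 ⟨a, ha, rfl⟩
    · intro z hz
      exact hz
  rw [hcard] at h1
  refine h1.trans ?_
  unfold gtDeg
  exact le_ciSup (f := fun I : {I : Ideal (Gam n) // I.IsMaximal} =>
    Module.rank ℂ (gtSpace (Verma (negRho n)) I.1)) (Cardinal.bddAbove_of_small) ⟨I, hmax⟩

theorem gtDeg_eq (n : ℕ) : gtDeg (n := n) (Verma (negRho n)) =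
    ((∏ k ∈ Finset.range n, k.factorial : ℕ) : Cardinal) :=
  le_antisymm (gtDeg_le n) (le_gtDeg n)

end Pool.Agent.R662.GT
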