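import Pool.Agent.R662.GT.Cent

/-!
# Separation of the central characters by the Casimir elements `tr (E^k)`
-/

set_option autoImplicit false

namespace Pool.Agent.R662.GT

attribute [local instance 100] LieRing.ofAssociativeRing

variable {n : ℕ}

/-- the entries of the powers of the matrix `(E_ij)` -/
noncomputable def Ep : ℕ → Fin n → Fin n → U n
  | 0, p, q => if p = q then 1 else 0
  | k + 1, p, q => ∑ r : Fin n, E p r * Ep k r q

theorem Ep_comm : ∀ (k : ℕ) (i j p q : Fin n), (E i j : U n) * Ep k p q - Ep k p q * E i j =
    (if j = p then Ep k i q else 0) - (if q = i then Ep k p j else 0) := by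
  intro k
  induction k with
  | zero =>
    intro i j p q
    have h0 : (E i j : U n) * Ep 0 p q - Ep 0 p q * E i j = 0 := by
      unfold Ep
      split_ifs <;> simp
    rw [h0]
    unfold Ep
    by_cases h1 : j = p <;> by_cases h2 : q = i
    · simp [h1, h2]
    · simp [h1, h2, Ne.symm h2]
    · simp [h1, h2, Ne.symm h1]
    · simp [h1, h2]
  | succ k ih =>
    intro i j p q
    have h1 : (E i j : U n) * Ep (k + 1) p q - Ep (k + 1) p q * E i j =
        ∑ r : Fin n, ((E i j * E p r - E p r * E i j) * Ep k r q +
          E p r * (E i j * Ep k r q - Ep k r q * E i j)) := by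
      conv_lhs => unfold Ep
      rw [Finset.mul_sum, Finset.sum_mul, ← Finset.sum_sub_distrib]
      refine Finset.sum_congr rfl fun r _ => ?_
      noncomm_ring
    rw [h1]
    simp only [E_comm, ih]
    have h2 : ∀ r : Fin n, ((if j = p then (E i r : U n) else 0) - (if r = i then E p j else 0)) *
        Ep k r q + E p r * ((if j = r then Ep k i q else 0) - (if q = i then Ep k r j else 0)) =
        (if j = p then (E i r : U n) * Ep k r q else 0) - (if r = i then E p j * Ep k i q else 0) +
        ((if j = r then E p j * Ep k i q else 0) - (if q = i then E p r * Ep k r j else 0)) := by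
      intro r
      rw [sub_mul, mul_sub]
      congr 1
      · congr 1
        · split_ifs <;> simp
        · split_ifs with h
          · rw [h]
          · simp
      · congr 1
        · split_ifs with h
          · rw [h]
          · simp
        · split_ifs <;> simp
    rw [Finset.sum_congr rfl (fun r _ => h2 r), Finset.sum_add_distrib, Finset.sum_sub_distrib,
      Finset.sum_sub_distrib]
    simp only [Finset.sum_ite_eq', Finset.sum_ite_eq, Finset.mem_univ, if_true]
    have h3 : (∑ r : Fin n, if j = p then (E i r : U n) * Ep k r q else 0) =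
        if j = p then Ep (k + 1) i q else 0 := by
      split_ifs
      · rfl
      · simp
    have h4 : (∑ r : Fin n, if q = i then (E p r : U n) * Ep k r j else 0) =
        if q = i then Ep (k + 1) p j else 0 := by
      split_ifs
      · rfl
      · simp
    rw [h3, h4]
    abel

/-- the Casimir elements -/
noncomputable def Cas (n k : ℕ) : U n := ∑ p : Fin n, Ep k p p

theorem mem_center_of_comm {z : U n} (h : ∀ i j : Fin n, E i j * z = z * E i j) :
    z ∈ Subalgebra.center ℂ (U n) := by
  rw [Subalgebra.mem_center_iff]
  intro b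
  have := U_induction (Subalgebra.centralizer ℂ {z}) (fun i j => by
    rw [Subalgebra.mem_centralizer_iff]
    intro g hg
    rw [Set.mem_singleton_iff.1 hg]
    exact (h i j).symm) b
  rw [Subalgebra.mem_centralizer_iff] at this
  exact (this z rfl).symm

theorem Cas_center (k : ℕ) : Cas n k ∈ Subalgebra.center ℂ (U n) := by
  refine mem_center_of_comm fun i j => ?_
  rw [← sub_eq_zero]
  unfold Cas
  rw [Finset.mul_sum, Finset.sum_mul, ← Finset.sum_sub_distrib]
  simp only [Ep_comm]
  rw [Finset.sum_sub_distrib]
  simp

/-- the eigenvalues -/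
noncomputable def aa (μ : Fin n → ℂ) : ℕ → Fin n → ℂ
  | 0, _ => 1
  | k + 1, p => μ p * aa μ k p + ∑ r : Fin n, if p < r then aa μ k p - aa μ k r else 0

section hw

variable {M : Type*} [AddCommGroup M] [Module (U n) M] [Module ℂ M] [IsScalarTower ℂ (U n) M]

theorem Ep_up {μ : Fin n → ℂ} {w : M} (h : IsHW μ w) : ∀ (k : ℕ) (j p : Fin n), j < p →
    Ep k j p • w = 0 := by
  intro k
  induction k with
  | zero => intro j p hjp; unfold Ep; rw [if_neg hjp.ne, zero_smul]
  | succ k ih =>
    intro j p hjp
    unfold Ep
    rw [Finset.sum_smul]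
    refine Finset.sum_eq_zero fun r _ => ?_
    rcases lt_or_ge r p with hr | hr
    · rw [mul_smul, ih r p hr, smul_zero]
    · have h1 := Ep_comm k j r r p
      rw [if_pos rfl, if_neg hjp.ne', sub_zero, sub_eq_iff_eq_add] at h1
      rw [h1, add_smul, mul_smul, h.up j r (hjp.trans_le hr), smul_zero, add_zero, ih j p hjp]

theorem Ep_diag {μ : Fin n → ℂ} {w : M} (h : IsHW μ w) : ∀ (k : ℕ) (p : Fin n),
    Ep k p p • w = aa μ k p • w := by
  intro k
  induction k with
  | zero => intro p; unfold Ep aa; rw [if_pos rfl, one_smul, one_smul]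
  | succ k ih =>
    intro p
    have h2 : ∀ r : Fin n, (E p r * Ep k r p : U n) • w =
        ((if r = p then μ p * aa μ k p else 0) + (if p < r then aa μ k p - aa μ k r else 0)) • w := by
      intro r
      rcases lt_trichotomy r p with hr | hr | hr
      · rw [mul_smul, Ep_up h k r p hr, smul_zero, if_neg hr.ne, if_neg hr.not_gt, add_zero,
          zero_smul]
      · subst hr
        rw [mul_smul, ih, smul_comm', h.di, smul_smul, if_pos rfl, if_neg (lt_irrefl _), add_zero,
          mul_comm]
      · have h1 := Ep_comm k p r r p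
        rw [if_pos rfl, if_pos rfl, sub_eq_iff_eq_add] at h1
        rw [h1, add_smul, mul_smul, h.up p r hr, smul_zero, add_zero, sub_smul, ih, ih,
          if_neg hr.ne', if_pos hr, zero_add, sub_smul]
    unfold Ep
    rw [Finset.sum_smul, Finset.sum_congr rfl (fun r _ => h2 r), ← Finset.sum_smul,
      Finset.sum_add_distrib]
    simp only [Finset.sum_ite_eq', Finset.mem_univ, if_true]
    rfl

end hw

theorem chi_Cas (μ : Fin n → ℂ) (k : ℕ) : chi μ (Cas n k) = ∑ p : Fin n, aa μ k p := by
  have h1 := central_hwv μ (Cas_center (n := n) k)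
  have h2 : Cas n k • hwv μ = (∑ p : Fin n, aa μ k p) • hwv μ := by
    unfold Cas
    rw [Finset.sum_smul, Finset.sum_smul]
    exact Finset.sum_congr rfl fun p _ => Ep_diag (hwv_isHW μ) k p
  rw [h1] at h2
  exact smul_left_injective ℂ (hwv_ne μ) h2

end Pool.Agent.R662.GT
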