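import Pool.Agent.R662.GT.Cent

/-!
# The action of the centers of the corner subalgebras is triangular
-/

set_option autoImplicit false

namespace Pool.Agent.R662.GT

attribute [local instance 100] LieRing.ofAssociativeRing

variable {n : ℕ}

/-- the weights of the rows -/
def gg (L : List (Ix n)) (r : Fin n) : ℕ :=
  (L.map (fun p => if p.1 = r then n - p.2.1 else 0)).sum

@[simp] theorem gg_nil (r : Fin n) : gg ([] : List (Ix n)) r = 0 := rfl

@[simp] theorem gg_cons (p : Ix n) (L : List (Ix n)) (r : Fin n) :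
    gg (p :: L) r = (if p.1 = r then n - p.2.1 else 0) + gg L r := by simp [gg]

theorem gg_append (L L' : List (Ix n)) (r : Fin n) : gg (L ++ L') r = gg L r + gg L' r := by
  simp [gg]

theorem gg_perm {L L' : List (Ix n)} (h : L.Perm L') (r : Fin n) : gg L r = gg L' r :=
  (h.map _).sum_eq

theorem gg_zero {L : List (Ix n)} {r : Fin n} (h : ∀ p ∈ L, p.1 ≠ r) : gg L r = 0 := by
  induction L with
  | nil => rfl
  | cons p L ih =>
    rw [gg_cons, ih (fun q hq => h q (by simp [hq])), if_neg (h p (by simp))]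

/-- the order relation -/
def Rm (m : ℕ) (L' L : List (Ix n)) : Prop :=
  ∃ r : Fin n, m ≤ r.1 ∧ gg L' r < gg L r ∧ ∀ s, r < s → gg L' s = gg L s

theorem Rm_irrefl (m : ℕ) (L : List (Ix n)) : ¬ Rm m L L := fun ⟨_, _, h, _⟩ => lt_irrefl _ h

theorem Rm_trans {m : ℕ} {a b c : List (Ix n)} (h1 : Rm m a b) (h2 : Rm m b c) : Rm m a c := by
  obtain ⟨r1, hm1, hl1, he1⟩ := h1
  obtain ⟨r2, hm2, hl2, he2⟩ := h2
  rcases lt_trichotomy r1 r2 with h | h | h
  · exact ⟨r2, hm2, by rw [he1 r2 h]; exact hl2, fun s hs => by rw [he1 s (h.trans hs), he2 s hs]⟩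
  · subst h
    exact ⟨r1, hm1, hl1.trans hl2, fun s hs => by rw [he1 s hs, he2 s hs]⟩
  · exact ⟨r1, hm1, by rw [← he2 r1 h]; exact hl1, fun s hs => by rw [he1 s hs, he2 s (h.trans hs)]⟩

theorem Rm_congr {m : ℕ} {a a' b b' : List (Ix n)} (h1 : ∀ r : Fin n, m ≤ r.1 → gg a r = gg a' r)
    (h2 : ∀ r : Fin n, m ≤ r.1 → gg b r = gg b' r) (h : Rm m a b) : Rm m a' b' := by
  obtain ⟨r, hm, hl, he⟩ := h
  refine ⟨r, hm, by rw [← h1 r hm, ← h2 r hm]; exact hl, fun s hs => ?_⟩
  have : m ≤ s.1 := hm.trans (Fin.lt_def.1 hs).le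
  rw [← h1 s this, ← h2 s this]
  exact he s hs

theorem Rm_zero {m : ℕ} {a b : List (Ix n)} (h : Rm m a b) : Rm 0 a b := by
  obtain ⟨r, hm, hl, he⟩ := h
  exact ⟨r, Nat.zero_le _, hl, he⟩

/-- sorted by the rows -/
def RS (L : List (Ix n)) : Prop := L.Pairwise (fun p q => p.1 ≤ q.1)

theorem RS_of_srt {L : List (Ix n)} (h : Srt L) (hl : ∀ p ∈ L, Low p) : RS L := by
  induction L with
  | nil => exact List.Pairwise.nil
  | cons p L ih =>
    obtain ⟨h1, h2⟩ := List.pairwise_cons.1 h
    refine List.pairwise_cons.2 ⟨fun q hq => ?_, ih h2 (fun q hq => hl q (by simp [hq]))⟩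
    have h3 := h1 q hq
    rw [Ix.le_def] at h3
    rcases h3 with ⟨_, h3⟩ | ⟨_, h3 | h3⟩
    · exact absurd (hl q (by simp [hq])) (not_low.2 h3)
    · exact h3.le
    · exact h3.1.le

theorem comm_same_row {p q : Ix n} (hp : Low p) (hq : Low q) (h : q.1 = p.1) :
    (ee q * ee p : U n) = ee p * ee q := by
  have h1 := E_comm q.1 q.2 p.1 p.2
  unfold Low at hp hq
  rw [if_neg, if_neg, sub_zero, sub_eq_zero] at h1
  · exact h1
  · intro h2
    rw [h2, h] at hp
    exact lt_irrefl _ hp
  · intro h2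
    rw [h2, ← h] at hq
    exact lt_irrefl _ hq

theorem mon_orderedInsert (p : Ix n) (hp : Low p) : ∀ L : List (Ix n),
    (∀ q ∈ L, Low q ∧ p.1 ≤ q.1) → mon (L.orderedInsert (· ≤ ·) p) = ee p * mon L := by
  intro L
  induction L with
  | nil => intro _; simp
  | cons q L ih =>
    intro h
    rw [List.orderedInsert_cons]
    split_ifs with hpq
    · rw [mon_cons]
    · have hlt : q < p := not_le.1 hpq
      have hq := h q (by simp)
      have heq : q.1 = p.1 := by
        rw [Ix.lt_def] at hlt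
        rcases hlt with ⟨_, h2⟩ | ⟨_, h2 | ⟨h2, _⟩⟩
        · exact absurd hp (not_low.2 h2)
        · exact absurd h2 (not_lt.2 hq.2)
        · exact h2
      rw [mon_cons, ih (fun r hr => h r (by simp [hr])), mon_cons, ← mul_assoc, ← mul_assoc,
        comm_same_row hp hq.1 heq]

theorem mon_insertionSort : ∀ L : List (Ix n), RS L → (∀ p ∈ L, Low p) →
    mon (L.insertionSort (· ≤ ·)) = mon L := by
  intro L
  induction L with
  | nil => intro _ _; rfl
  | cons p L ih =>
    intro hL hlow
    obtain ⟨h1, h2⟩ := List.pairwise_cons.1 hL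
    rw [List.insertionSort_cons, mon_orderedInsert p (hlow p (by simp)), ih h2
      (fun q hq => hlow q (by simp [hq])), mon_cons]
    intro q hq
    have hq' : q ∈ L := (List.mem_insertionSort (· ≤ ·)).1 hq
    exact ⟨hlow q (by simp [hq']), h1 q hq'⟩

/-- products over row sorted lists give basis vectors -/
theorem vv_mem (lam : Fin n → ℂ) {L : List (Ix n)} (hL : RS L) (hlow : ∀ p ∈ L, Low p) :
    ∃ c : LL n, c.1.Perm L ∧ mon L • hwv lam = verB lam c := by
  refine ⟨⟨L.insertionSort (· ≤ ·), List.pairwise_insertionSort (· ≤ ·) L, fun p hp =>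
    hlow p ((List.mem_insertionSort (· ≤ ·)).1 hp)⟩, List.perm_insertionSort (· ≤ ·) L, ?_⟩
  rw [verB_apply, mon_insertionSort L hL hlow]

/-- the embedding of the index pairs -/
def castP {m : ℕ} (hmn : m ≤ n) (p : Ix m) : Ix n := (Fin.castLE hmn p.1, Fin.castLE hmn p.2)

theorem Phi_ee {m : ℕ} (hmn : m ≤ n) (p : Ix m) : Phi hmn (ee p) = ee (castP hmn p) :=
  Phi_E hmn p.1 p.2

theorem Phi_mon {m : ℕ} (hmn : m ≤ n) (l : List (Ix m)) :
    Phi hmn (mon l) = mon (l.map (castP hmn)) := by
  induction l with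
  | nil => simp
  | cons p l ih => rw [mon_cons, map_mul, ih, Phi_ee, List.map_cons, mon_cons]

theorem low_castP {m : ℕ} (hmn : m ≤ n) (p : Ix m) : Low (castP hmn p) ↔ Low p := Iff.rfl

theorem exists_cast {m : ℕ} (hmn : m ≤ n) : ∀ l : List (Ix n), (∀ p ∈ l, Low p ∧ p.1.1 < m) →
    ∃ l' : List (Ix m), l'.map (castP hmn) = l := by
  intro l
  induction l with
  | nil => intro _; exact ⟨[], rfl⟩
  | cons p l ih =>
    intro h
    obtain ⟨l', hl'⟩ := ih (fun q hq => h q (by simp [hq]))
    have hp := h p (by simp)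
    have h2 : p.2.1 < m := (Fin.lt_def.1 hp.1).trans hp.2
    refine ⟨pr ⟨p.1.1, hp.2⟩ ⟨p.2.1, h2⟩ :: l', ?_⟩
    rw [List.map_cons, hl']
    rfl

/-- the count of the pairs in a column below a row -/
def cnt (L : List (Ix n)) (m i : ℕ) : ℕ := L.countP (fun p => decide (m ≤ p.1.1 ∧ p.2.1 = i))

theorem cnt_cons (p : Ix n) (L : List (Ix n)) (m i : ℕ) :
    cnt (p :: L) m i = cnt L m i + if m ≤ p.1.1 ∧ p.2.1 = i then 1 else 0 := by
  unfold cnt
  rw [List.countP_cons]
  simp

theorem cnt_perm {L L' : List (Ix n)} (h : L.Perm L') (m i : ℕ) : cnt L m i = cnt L' m i :=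
  h.countP_eq _

section lists

variable {m : ℕ} (lam : Fin n → ℂ)

theorem E_up_list (i j : Fin n) (hij : i < j) (hj : j.1 < m) : ∀ b : List (Ix n),
    (∀ p ∈ b, Low p ∧ m ≤ p.1.1) → (E i j : U n) • (mon b • hwv lam) ∈
      Submodule.span ℂ ((fun t : List (Ix n) => mon t • hwv lam) ''
        {t | t.map (fun p => p.1) = b.map (fun p => p.1) ∧ (∀ p ∈ t, Low p) ∧ Rm m t b}) := by
  intro b
  induction b with
  | nil =>
    intro _
    rw [mon_nil, one_smul, (hwv_isHW lam).up i j hij]
    exact Submodule.zero_mem _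
  | cons p b ih =>
    intro hb
    have hp := hb p (by simp)
    have h1 := E_comm i j p.1 p.2
    rw [if_neg (fun h => by rw [← h] at hp; omega), zero_sub, sub_eq_iff_eq_add] at h1
    have h2 : (E i j : U n) • (mon (p :: b) • hwv lam) = ee p • (E i j • (mon b • hwv lam)) -
        (if p.2 = i then mon (pr p.1 j :: b) • hwv lam else 0) := by
      rw [mon_cons, mul_smul, ← mul_smul (E i j)]
      unfold ee
      rw [h1, add_smul, mul_smul, neg_smul, neg_add_eq_sub]
      congr 1
      split_ifs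
      · rw [mon_cons, mul_smul, ee_pr]
      · rw [zero_smul]
    rw [h2]
    refine Submodule.sub_mem _ ?_ ?_
    · have h3 := ih (fun q hq => hb q (by simp [hq]))
      generalize (E i j : U n) • (mon b • hwv lam) = x at h3 ⊢
      induction h3 using Submodule.span_induction with
      | zero => rw [smul_zero]; exact Submodule.zero_mem _
      | add y z _ _ h4 h5 => rw [smul_add]; exact Submodule.add_mem _ h4 h5
      | smul c y _ h4 => rw [smul_comm']; exact Submodule.smul_mem _ _ h4
      | mem y hy =>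
        obtain ⟨t, ⟨ht1, ht2, r, hr1, hr2, hr3⟩, rfl⟩ := hy
        refine Submodule.subset_span ⟨p :: t, ⟨?_, ?_, r, hr1, ?_, ?_⟩, ?_⟩
        · rw [List.map_cons, List.map_cons, ht1]
        · intro q hq
          rcases List.mem_cons.1 hq with rfl | hq
          · exact hp.1
          · exact ht2 q hq
        · rw [gg_cons, gg_cons]; omega
        · intro s hs
          rw [gg_cons, gg_cons, hr3 s hs]
        · change mon (p :: t) • hwv lam = _
          rw [mon_cons, mul_smul]
    · split_ifs with h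
      · refine Submodule.subset_span ⟨pr p.1 j :: b, ⟨?_, ?_, p.1, hp.2, ?_, ?_⟩, rfl⟩
        · rw [List.map_cons, List.map_cons]; rfl
        · intro q hq
          rcases List.mem_cons.1 hq with rfl | hq
          · exact Fin.lt_def.2 (lt_of_lt_of_le hj hp.2)
          · exact (hb q (by simp [hq])).1
        · rw [gg_cons, gg_cons, pr_fst, if_pos rfl, if_pos rfl, pr_snd, h]
          have h4 : i.1 < j.1 := hij
          have h5 := j.2
          omega
        · intro s hs
          rw [gg_cons, gg_cons, pr_fst, if_neg hs.ne, if_neg hs.ne]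
      · exact Submodule.zero_mem _

theorem E_diag_list (i : Fin n) (hi : i.1 < m) : ∀ b : List (Ix n),
    (∀ p ∈ b, m ≤ p.1.1) → (E i i : U n) • (mon b • hwv lam) =
      (lam i - (cnt b m i.1 : ℂ)) • (mon b • hwv lam) := by
  intro b
  induction b with
  | nil =>
    intro _
    rw [mon_nil, one_smul, (hwv_isHW lam).di i]
    simp [cnt]
  | cons p b ih =>
    intro hb
    have hp := hb p (by simp)
    have h1 := E_comm i i p.1 p.2
    rw [if_neg (fun h => by rw [← h] at hp; omega), zero_sub, sub_eq_iff_eq_add] at h1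
    rw [mon_cons, mul_smul, ← mul_smul (E i i)]
    unfold ee
    rw [h1, add_smul, mul_smul, ih (fun q hq => hb q (by simp [hq])), smul_comm', neg_smul,
      cnt_cons]
    by_cases h : p.2 = i
    · rw [if_pos h, if_pos ⟨hp, congrArg Fin.val h⟩, h]
      push_cast
      generalize (E p.1 i : U n) • mon b • hwv lam = y
      module
    · rw [if_neg h, if_neg (fun h' => h (Fin.ext h'.2)), zero_smul, neg_zero, zero_add, add_zero]

/-- the span of the vectors attached to the lists of pairs in the rows below `m` -/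
noncomputable def Top (m : ℕ) (b : List (Ix n)) : Submodule ℂ (Verma lam) :=
  Submodule.span ℂ ((fun t : List (Ix n) => mon t • hwv lam) ''
    {t | RS t ∧ (∀ p ∈ t, Low p ∧ m ≤ p.1.1) ∧ Rm m t b})

theorem RS_of_map {t b : List (Ix n)} (h : t.map (fun p => p.1) = b.map (fun p => p.1))
    (hb : RS b) : RS t := by
  have h1 : (b.map (fun p => p.1)).Pairwise (· ≤ ·) := List.pairwise_map.2 hb
  rw [← h] at h1
  exact List.pairwise_map.1 h1

theorem row_of_map {t b : List (Ix n)} (h : t.map (fun p => p.1) = b.map (fun p => p.1))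
    (hb : ∀ p ∈ b, m ≤ p.1.1) : ∀ p ∈ t, m ≤ p.1.1 := by
  intro p hp
  have h1 : p.1 ∈ t.map (fun p => p.1) := List.mem_map_of_mem (f := fun p : Ix n => p.1) hp
  rw [h] at h1
  obtain ⟨q, hq, hq2⟩ := List.mem_map.1 h1
  have h2 := hb q hq
  have h3 : q.1 = p.1 := hq2
  rwa [h3] at h2

theorem Top_of_up {t b : List (Ix n)} (hb : RS b) (hb2 : ∀ p ∈ b, Low p ∧ m ≤ p.1.1)
    (i j : Fin n) (hij : i < j) (hj : j.1 < m) :
    (E i j : U n) • (mon b • hwv lam) ∈ Top lam m b := by
  refine Submodule.span_mono (Set.image_mono ?_) (E_up_list lam i j hij hj b hb2)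
  rintro t ⟨h1, h2, h3⟩
  exact ⟨RS_of_map h1 hb, fun p hp => ⟨h2 p hp, row_of_map h1 (fun p hp => (hb2 p hp).2) p hp⟩, h3⟩

theorem Top_up (hmn : m ≤ n) (b : List (Ix n)) (p : Ix m) (hp : ¬ Low p) {x : Verma lam}
    (hx : x ∈ Top lam m b) : Phi hmn (ee p) • x ∈ Top lam m b := by
  unfold Top at hx
  induction hx using Submodule.span_induction with
  | zero => rw [smul_zero]; exact Submodule.zero_mem _
  | add y z _ _ h4 h5 => rw [smul_add]; exact Submodule.add_mem _ h4 h5
  | smul c y _ h4 => rw [smul_comm']; exact Submodule.smul_mem _ _ h4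
  | mem y hy =>
    obtain ⟨t, ⟨ht1, ht2, ht3⟩, rfl⟩ := hy
    change Phi hmn (ee p) • (mon t • hwv lam) ∈ _
    rw [Phi_ee]
    rcases (not_low.1 hp).lt_or_eq with h | h
    · have h1 := E_up_list lam (Fin.castLE hmn p.1) (Fin.castLE hmn p.2) (Fin.lt_def.2 h)
        (m := m) p.2.2 t ht2
      refine Submodule.span_mono (Set.image_mono ?_) h1
      rintro t' ⟨h1, h2, h3⟩
      exact ⟨RS_of_map h1 ht1, fun p hp => ⟨h2 p hp, row_of_map h1 (fun p hp => (ht2 p hp).2) p hp⟩,
        Rm_trans h3 ht3⟩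
    · have h1 := E_diag_list lam (Fin.castLE hmn p.1) (m := m) p.1.2 t (fun p hp => (ht2 p hp).2)
      have h2 : (ee (castP hmn p) : U n) = E (Fin.castLE hmn p.1) (Fin.castLE hmn p.1) := by
        unfold ee castP
        rw [← h]
      rw [h2, h1]
      exact Submodule.smul_mem _ _ (Submodule.subset_span ⟨t, ⟨ht1, ht2, ht3⟩, rfl⟩)

theorem Top_up_list (hmn : m ≤ n) (b : List (Ix n)) {x : Verma lam}
    (hx : x ∈ Top lam m b) : ∀ L : List (Ix m), (∀ p ∈ L, ¬ Low p) →
      Phi hmn (mon L) • x ∈ Top lam m b := by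
  intro L
  induction L with
  | nil => intro _; rw [mon_nil, map_one, one_smul]; exact hx
  | cons p L ih =>
    intro hL
    rw [mon_cons, map_mul, mul_smul]
    exact Top_up lam hmn b p (hL p (by simp)) (ih (fun q hq => hL q (by simp [hq])))

/-- the span of the lower basis vectors -/
noncomputable def Lo (m : ℕ) (b : List (Ix n)) : Submodule ℂ (Verma lam) :=
  Submodule.span ℂ (verB lam '' {c : LL n | Rm m c.1 b})

theorem mem_Lo {t b : List (Ix n)} (ht : RS t) (ht2 : ∀ p ∈ t, Low p) (h : Rm m t b) :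
    mon t • hwv lam ∈ Lo lam m b := by
  obtain ⟨c, hc1, hc2⟩ := vv_mem lam ht ht2
  rw [hc2]
  refine Submodule.subset_span ⟨c, ?_, rfl⟩
  exact Rm_congr (fun r _ => (gg_perm hc1 r).symm) (fun r _ => rfl) h

theorem Top_low (hmn : m ≤ n) (b : List (Ix n)) (l : LL m) {x : Verma lam}
    (hx : x ∈ Top lam m b) : Phi hmn (mon l.1) • x ∈ Lo lam m b := by
  unfold Top at hx
  induction hx using Submodule.span_induction with
  | zero => rw [smul_zero]; exact Submodule.zero_mem _
  | add y z _ _ h4 h5 => rw [smul_add]; exact Submodule.add_mem _ h4 h5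
  | smul c y _ h4 => rw [smul_comm']; exact Submodule.smul_mem _ _ h4
  | mem y hy =>
    obtain ⟨t, ⟨ht1, ht2, ht3⟩, rfl⟩ := hy
    change Phi hmn (mon l.1) • (mon t • hwv lam) ∈ _
    rw [Phi_mon, ← mul_smul, ← mon_append]
    refine mem_Lo lam ?_ ?_ ?_
    · refine List.pairwise_append.2 ⟨List.pairwise_map.2 ?_, ht1, ?_⟩
      · exact RS_of_srt l.2.1 l.2.2
      · intro p hp q hq
        obtain ⟨p', _, rfl⟩ := List.mem_map.1 hp
        exact Fin.le_def.2 ((p'.1.2.le).trans (ht2 q hq).2)
    · intro p hp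
      rcases List.mem_append.1 hp with hp | hp
      · obtain ⟨p', hp', rfl⟩ := List.mem_map.1 hp
        exact (low_castP hmn p').2 (l.2.2 p' hp')
      · exact (ht2 p hp).1
    · refine Rm_congr (fun r hr => ?_) (fun r _ => rfl) ht3
      rw [gg_append, gg_zero (L := l.1.map (castP hmn)), zero_add]
      intro p hp
      obtain ⟨p', hp', rfl⟩ := List.mem_map.1 hp
      intro h
      have h2 : p'.1.1 = r.1 := congrArg Fin.val h
      have := p'.1.2
      omega

theorem Top_Phi (hmn : m ≤ n) (b : List (Ix n)) {x : Verma lam}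
    (hx : x ∈ Top lam m b) (u : U m) : Phi hmn u • x ∈ Lo lam m b := by
  rw [← Submodule.Quotient.mk_eq_zero, ← Submodule.mkQ_apply]
  have h := span_low_up (n := m) ((Lo lam m b).mkQ.comp
    (((LinearMap.toSpanSingleton (U n) (Verma lam) x).restrictScalars ℂ).comp
      (Phi hmn).toLinearMap)) ?_ u
  · exact h
  · intro l1 L hL
    change (Lo lam m b).mkQ (Phi hmn (mon l1.1 * mon L) • x) = 0
    rw [Submodule.mkQ_apply, Submodule.Quotient.mk_eq_zero, map_mul, mul_smul]
    exact Top_low lam hmn b l1 (Top_up_list lam hmn b hx L hL)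

theorem split_rows (m : ℕ) : ∀ (L : List (Ix n)), RS L →
    L = L.filter (fun p => decide (p.1.1 < m)) ++ L.filter (fun p => !decide (p.1.1 < m)) := by
  intro L
  induction L with
  | nil => intro _; rfl
  | cons a t ih =>
    intro h
    obtain ⟨h1, h2⟩ := List.pairwise_cons.1 h
    by_cases ha : a.1.1 < m
    · simp only [List.filter_cons, ha, decide_true, if_true, Bool.not_true,
        Bool.false_eq_true, if_false, List.cons_append]
      exact congrArg _ (ih h2)
    · have ht : ∀ p ∈ a :: t, ¬ p.1.1 < m := by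
        intro p hp
        rcases List.mem_cons.1 hp with rfl | hp
        · exact ha
        · intro h3
          have h4 : a.1.1 ≤ p.1.1 := h1 p hp
          omega
      rw [List.filter_eq_nil_iff.2 (fun p hp => by simpa using ht p hp),
        List.filter_eq_self.2 (fun p hp => by simpa using ht p hp), List.nil_append]

/-- the part of a list above the row `m` -/
def hi (m : ℕ) (L : List (Ix n)) : List (Ix n) := L.filter (fun p => !decide (p.1.1 < m))

theorem hi_row {L : List (Ix n)} {p : Ix n} (hp : p ∈ hi m L) : m ≤ p.1.1 := by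
  have := (List.mem_filter.1 hp).2
  simpa using this

theorem hi_mem {L : List (Ix n)} {p : Ix n} (hp : p ∈ hi m L) : p ∈ L := (List.mem_filter.1 hp).1

theorem gg_hi (L : List (Ix n)) (r : Fin n) (hr : m ≤ r.1) : gg (hi m L) r = gg L r := by
  induction L with
  | nil => rfl
  | cons p L ih =>
    unfold hi at ih ⊢
    rw [List.filter_cons]
    split_ifs with h
    · rw [gg_cons, gg_cons, ih]
    · rw [gg_cons, ih, if_neg, zero_add]
      intro h2
      have h3 : p.1.1 < m := by simpa using h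
      rw [h2] at h3
      omega

theorem cnt_hi (L : List (Ix n)) (i : ℕ) : cnt (hi m L) m i = cnt L m i := by
  induction L with
  | nil => rfl
  | cons p L ih =>
    unfold hi at ih ⊢
    rw [List.filter_cons]
    split_ifs with h
    · rw [cnt_cons, cnt_cons, ih]
    · rw [cnt_cons, ih, if_neg, add_zero]
      intro h2
      have h3 : p.1.1 < m := by simpa using h
      omega

theorem split_LL (hmn : m ≤ n) (c : LL n) : ∃ l' : List (Ix m),
    mon c.1 = Phi hmn (mon l') * mon (hi m c.1) ∧ RS (hi m c.1) ∧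
      (∀ p ∈ hi m c.1, Low p ∧ m ≤ p.1.1) := by
  have hRS : RS c.1 := RS_of_srt c.2.1 c.2.2
  have h1 := split_rows m c.1 hRS
  obtain ⟨l', hl'⟩ := exists_cast hmn (c.1.filter (fun p => decide (p.1.1 < m))) (fun p hp => by
    have := List.mem_filter.1 hp
    exact ⟨c.2.2 p this.1, by simpa using this.2⟩)
  refine ⟨l', ?_, hRS.filter _, fun p hp => ⟨c.2.2 p (hi_mem hp), hi_row hp⟩⟩
  rw [Phi_mon, hl', ← mon_append]
  exact congrArg mon h1

theorem Lo_Phi (hmn : m ≤ n) (b : List (Ix n)) {x : Verma lam}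
    (hx : x ∈ Lo lam m b) (u : U m) : Phi hmn u • x ∈ Lo lam m b := by
  unfold Lo at hx
  induction hx using Submodule.span_induction with
  | zero => rw [smul_zero]; exact Submodule.zero_mem _
  | add y z _ _ h4 h5 => rw [smul_add]; exact Submodule.add_mem _ h4 h5
  | smul c y _ h4 => rw [smul_comm']; exact Submodule.smul_mem _ _ h4
  | mem y hy =>
    obtain ⟨c, hc, rfl⟩ := hy
    obtain ⟨l', h1, h2, h3⟩ := split_LL hmn c
    rw [verB_apply, h1, mul_smul, ← mul_smul, ← map_mul]
    refine Top_Phi lam hmn b (Submodule.subset_span ⟨hi m c.1, ⟨h2, h3, ?_⟩, rfl⟩) _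
    exact Rm_congr (fun r hr => (gg_hi c.1 r hr).symm) (fun r _ => rfl) hc

/-- the weight of the top vector -/
noncomputable def wt (hmn : m ≤ n) (L : List (Ix n)) : Fin m → ℂ :=
  fun i => lam (Fin.castLE hmn i) - (cnt L m i.1 : ℂ)

theorem J_Phi (hmn : m ≤ n) (t : List (Ix n)) (ht : RS t) (ht2 : ∀ p ∈ t, Low p ∧ m ≤ p.1.1)
    {x : U m} (hx : x ∈ J (wt lam hmn t)) : Phi hmn x • (mon t • hwv lam) ∈ Lo lam m t := by
  unfold J at hx
  induction hx using Submodule.span_induction with
  | zero => rw [map_zero, zero_smul]; exact Submodule.zero_mem _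
  | add y z _ _ h4 h5 => rw [map_add, add_smul]; exact Submodule.add_mem _ h4 h5
  | smul c y _ h4 =>
    rw [smul_eq_mul, map_mul, mul_smul]
    exact Lo_Phi lam hmn t h4 c
  | mem x hx =>
    rcases hx with ⟨i, j, hij, rfl⟩ | ⟨i, rfl⟩
    · rw [Phi_E]
      have h1 := Top_of_up (t := t) lam ht ht2 (Fin.castLE hmn i) (Fin.castLE hmn j)
        (Fin.lt_def.2 hij) (m := m) j.2
      have h2 := Top_Phi lam hmn t h1 1
      rwa [map_one, one_smul] at h2
    · rw [map_sub, AlgHom.commutes, Phi_E, sub_smul, E_diag_list lam (Fin.castLE hmn i) (m := m)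
        i.2 t (fun p hp => (ht2 p hp).2), algebraMap_smul]
      unfold wt
      rw [Fin.val_castLE, sub_self]
      exact Submodule.zero_mem _

theorem Lo_hi (L : List (Ix n)) : Lo lam m (hi m L) = Lo lam m L := by
  unfold Lo
  congr 2
  ext c
  constructor
  · intro h
    exact Rm_congr (fun r _ => rfl) (fun r hr => gg_hi L r hr) h
  · intro h
    exact Rm_congr (fun r _ => rfl) (fun r hr => (gg_hi L r hr).symm) h

theorem wt_hi (hmn : m ≤ n) (L : List (Ix n)) : wt lam hmn (hi m L) = wt lam hmn L := by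
  unfold wt
  funext i
  rw [cnt_hi]

/-- the action of the centers is triangular -/
theorem tri_gen (hmn : m ≤ n) (a : LL n) {z : U m} (hz : z ∈ Subalgebra.center ℂ (U m)) :
    Phi hmn z • verB lam a - chi (wt lam hmn a.1) z • verB lam a ∈ Lo lam m a.1 := by
  obtain ⟨l', h1, h2, h3⟩ := split_LL hmn a
  have h4 := J_Phi lam hmn (hi m a.1) h2 h3 (chi_mem_J _ hz)
  have h5 := Lo_Phi lam hmn _ h4 (mon l')
  rw [Lo_hi, wt_hi, map_sub, AlgHom.commutes, sub_smul, smul_sub, algebraMap_smul, smul_comm',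
    ← mul_smul, ← mul_smul, ← map_mul, Subalgebra.mem_center_iff.1 hz, map_mul] at h5
  rw [verB_apply, h1, mul_smul]
  rw [mul_smul, mul_smul] at h5
  exact h5

end lists

end Pool.Agent.R662.GT
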