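import Pool.Agent.R662.GT.Basic

/-!
# The basis of a Verma module
-/

set_option autoImplicit false

namespace Pool.Agent.R662.GT

attribute [local instance 100] LieRing.ofAssociativeRing

variable {n : ℕ}

/-- the index pair `(i, j)` -/
def pr (i j : Fin n) : Ix n := (i, j)

@[simp] theorem pr_fst (i j : Fin n) : (pr i j).1 = i := rfl
@[simp] theorem pr_snd (i j : Fin n) : (pr i j).2 = j := rfl
theorem ee_pr (i j : Fin n) : ee (pr i j) = E i j := rfl

/-- lower pairs -/
def Low (p : Ix n) : Prop := p.2 < p.1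

instance (p : Ix n) : Decidable (Low p) := inferInstanceAs (Decidable (p.2 < p.1))

theorem not_low {p : Ix n} : ¬ Low p ↔ p.1 ≤ p.2 := not_lt

/-- the character of the Borel subalgebra -/
noncomputable def eps (μ : Fin n → ℂ) (p : Ix n) : ℂ := if p.1 = p.2 then μ p.1 else 0

/-- its value on a product -/
noncomputable def epsL (μ : Fin n → ℂ) (L : List (Ix n)) : ℂ := (L.map (eps μ)).prod

@[simp] theorem epsL_nil (μ : Fin n → ℂ) : epsL μ [] = 1 := rfl

@[simp] theorem epsL_cons (μ : Fin n → ℂ) (p : Ix n) (L : List (Ix n)) :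
    epsL μ (p :: L) = eps μ p * epsL μ L := by simp [epsL]

theorem epsL_append (μ : Fin n → ℂ) (L L' : List (Ix n)) :
    epsL μ (L ++ L') = epsL μ L * epsL μ L' := by simp [epsL]

/-- sorted lists of lower pairs -/
abbrev LL (n : ℕ) : Type := {l : List (Ix n) // Srt l ∧ ∀ p ∈ l, Low p}

/-- the lower part of a list -/
def lowp (l : List (Ix n)) : List (Ix n) := l.filter (fun p => decide (Low p))

/-- the upper part of a list -/
def upp (l : List (Ix n)) : List (Ix n) := l.filter (fun p => !decide (Low p))

theorem low_up_lt {p q : Ix n} (hp : Low p) (hq : ¬ Low q) : p < q :=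
  (Ix.lt_def p q).2 (Or.inl ⟨hp, not_low.1 hq⟩)

theorem split_sorted : ∀ (l : List (Ix n)), Srt l → l = lowp l ++ upp l := by
  intro l
  induction l with
  | nil => intro _; rfl
  | cons a t ih =>
    intro h
    obtain ⟨h1, h2⟩ := List.pairwise_cons.1 h
    by_cases ha : Low a
    · simp only [lowp, upp, List.filter_cons, ha, decide_true, if_true, Bool.not_true,
        Bool.false_eq_true, if_false, List.cons_append]
      exact congrArg _ (ih h2)
    · have ht : ∀ p ∈ t, ¬ Low p := by
        intro p hp hlow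
        exact absurd (low_up_lt hlow ha) (not_lt.2 (h1 p hp))
      have h3 : lowp (a :: t) = [] := by
        unfold lowp
        rw [List.filter_eq_nil_iff]
        intro p hp
        rcases List.mem_cons.1 hp with rfl | hp
        · simp [ha]
        · simp [ht p hp]
      have h4 : upp (a :: t) = a :: t := by
        unfold upp
        rw [List.filter_eq_self]
        intro p hp
        rcases List.mem_cons.1 hp with rfl | hp
        · simp [ha]
        · simp [ht p hp]
      rw [h3, h4]; rfl

theorem lowp_append {l1 L : List (Ix n)} (h1 : ∀ p ∈ l1, Low p) (h2 : ∀ p ∈ L, ¬ Low p) :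
    lowp (l1 ++ L) = l1 := by
  unfold lowp
  rw [List.filter_append, List.filter_eq_self.2 (fun p hp => by simp [h1 p hp]),
    List.filter_eq_nil_iff.2 (fun p hp => by simp [h2 p hp]), List.append_nil]

theorem upp_append {l1 L : List (Ix n)} (h1 : ∀ p ∈ l1, Low p) (h2 : ∀ p ∈ L, ¬ Low p) :
    upp (l1 ++ L) = L := by
  have e1 : l1.filter (fun p => !decide (Low p)) = [] :=
    List.filter_eq_nil_iff.2 (fun p hp => by simp [h1 p hp])
  have e2 : L.filter (fun p => !decide (Low p)) = L :=
    List.filter_eq_self.2 (fun p hp => by simp [h2 p hp])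
  unfold upp
  rw [List.filter_append, e1, e2, List.nil_append]

/-- the lower part of a sorted list as an element of `LL` -/
def lowLL (l : {l : List (Ix n) // Srt l}) : LL n :=
  ⟨lowp l.1, l.2.filter _, fun p hp => by
    have := (List.mem_filter.1 hp).2
    simpa using this⟩

/-- the coefficient map -/
noncomputable def theta (μ : Fin n → ℂ) : U n →ₗ[ℂ] (LL n →₀ ℂ) :=
  (pbw n).constr ℂ (fun l => Finsupp.single (lowLL l) (epsL μ (upp l.1)))

theorem theta_sorted (μ : Fin n → ℂ) (l1 : LL n) (L : List (Ix n)) (hL : Srt L)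
    (hup : ∀ p ∈ L, ¬ Low p) :
    theta μ (mon l1.1 * mon L) = Finsupp.single l1 (epsL μ L) := by
  have hs : Srt (l1.1 ++ L) := by
    refine List.pairwise_append.2 ⟨l1.2.1, hL, ?_⟩
    intro a ha b hb
    exact (low_up_lt (l1.2.2 a ha) (hup b hb)).le
  rw [← mon_append]
  have h := (pbw n).constr_basis ℂ
    (fun l => Finsupp.single (lowLL l) (epsL μ (upp l.1))) ⟨l1.1 ++ L, hs⟩
  rw [pbw_apply] at h
  unfold theta
  rw [h]
  congr 1
  · exact Subtype.ext (lowp_append l1.2.2 hup)
  · exact congrArg _ (upp_append l1.2.2 hup)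

theorem theta_swap (μ : Fin n → ℂ) (l1 : LL n) (N : ℕ)
    (ih : ∀ L : List (Ix n), L.length < N → (∀ p ∈ L, ¬ Low p) →
      theta μ (mon l1.1 * mon L) = Finsupp.single l1 (epsL μ L))
    {x y : Ix n} (hx : ¬ Low x) (hy : ¬ Low y) (A B : List (Ix n)) (hA : ∀ p ∈ A, ¬ Low p)
    (hB : ∀ p ∈ B, ¬ Low p) (hl : (A ++ x :: y :: B).length ≤ N) :
    theta μ (mon l1.1 * mon (A ++ x :: y :: B)) = theta μ (mon l1.1 * mon (A ++ y :: x :: B)) := by
  rw [not_low] at hx hy
  have hlen : (A.length + (B.length + 1)) < N := by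
    simp only [List.length_append, List.length_cons] at hl
    omega
  have key : mon l1.1 * mon (A ++ x :: y :: B) - mon l1.1 * mon (A ++ y :: x :: B) =
      mon l1.1 * mon A * (ee x * ee y - ee y * ee x) * mon B := by
    simp only [mon_append, mon_cons]
    noncomm_ring
  rw [← sub_eq_zero, ← map_sub, key]
  unfold ee
  rw [E_comm]
  have e1 : ∀ z : Ix n, mon l1.1 * mon A * E z.1 z.2 * mon B = mon l1.1 * mon (A ++ z :: B) := by
    intro z
    simp only [mon_append, mon_cons, ee, mul_assoc]
  have e2 : ∀ z : Ix n, ¬ Low z → theta μ (mon l1.1 * mon A * E z.1 z.2 * mon B) =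
      Finsupp.single l1 (epsL μ A * (eps μ z * epsL μ B)) := by
    intro z hz
    rw [e1, ih (A ++ z :: B) (by simpa using hlen) ?_, epsL_append, epsL_cons]
    intro p hp
    rcases List.mem_append.1 hp with hp | hp
    · exact hA p hp
    · rcases List.mem_cons.1 hp with rfl | hp
      · exact hz
      · exact hB p hp
  by_cases h1 : x.2 = y.1 <;> by_cases h2 : y.2 = x.1
  · have hxx : x.1 = x.2 := le_antisymm hx (by rw [h1, ← h2]; exact hy)
    have hyy : y.1 = y.2 := le_antisymm hy (by rw [h2, ← h1]; exact hx)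
    rw [if_pos h1, if_pos h2]
    have h3 : (E x.1 y.2 : U n) = E y.1 x.2 := by rw [h2, hxx, h1]
    rw [h3, sub_self, mul_zero, zero_mul, map_zero]
  · rw [if_pos h1, if_neg h2, sub_zero]
    have h3 : ¬ Low ((x.1, y.2) : Ix n) := not_low.2 (hx.trans (h1.le.trans hy))
    rw [e2 (x.1, y.2) h3]
    have h4 : eps μ ((x.1, y.2) : Ix n) = 0 := if_neg (fun h => h2 h.symm)
    rw [h4]; simp
  · rw [if_neg h1, if_pos h2, zero_sub, mul_neg, neg_mul, map_neg]
    have h3 : ¬ Low ((y.1, x.2) : Ix n) := not_low.2 (hy.trans (h2.le.trans hx))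
    rw [e2 (y.1, x.2) h3]
    have h4 : eps μ ((y.1, x.2) : Ix n) = 0 := if_neg (fun h => h1 h.symm)
    rw [h4]; simp
  · rw [if_neg h1, if_neg h2, sub_self, mul_zero, zero_mul, map_zero]

theorem theta_perm (μ : Fin n → ℂ) (l1 : LL n) (N : ℕ)
    (ih : ∀ L : List (Ix n), L.length < N → (∀ p ∈ L, ¬ Low p) →
      theta μ (mon l1.1 * mon L) = Finsupp.single l1 (epsL μ L))
    {L L' : List (Ix n)} (h : L.Perm L') : ∀ (A B : List (Ix n)), (∀ p ∈ A, ¬ Low p) →
    (∀ p ∈ B, ¬ Low p) → (∀ p ∈ L, ¬ Low p) → (A ++ (L ++ B)).length ≤ N →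
    theta μ (mon l1.1 * mon (A ++ (L ++ B))) = theta μ (mon l1.1 * mon (A ++ (L' ++ B))) := by
  induction h with
  | nil => intros; rfl
  | cons x h ih2 =>
    intro A B hA hB hL hl
    have := ih2 (A ++ [x]) B (by
      intro p hp
      rcases List.mem_append.1 hp with hp | hp
      · exact hA p hp
      · rw [List.mem_singleton.1 hp]; exact hL x (by simp)) hB (fun p hp => hL p (by simp [hp]))
      (by simpa using hl)
    simpa using this
  | swap x y l =>
    intro A B hA hB hL hl
    exact theta_swap μ l1 N ih (hL y (by simp)) (hL x (by simp)) A (l ++ B) hA (by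
      intro p hp
      rcases List.mem_append.1 hp with hp | hp
      · exact hL p (by simp [hp])
      · exact hB p hp) hl
  | trans h1 h2 ih1 ih2 =>
    intro A B hA hB hL hl
    rw [ih1 A B hA hB hL hl]
    refine ih2 A B hA hB (fun p hp => hL p (h1.mem_iff.2 hp)) ?_
    have := h1.length_eq
    simp only [List.length_append] at hl ⊢
    omega

theorem theta_upper (μ : Fin n → ℂ) (l1 : LL n) : ∀ (N : ℕ) (L : List (Ix n)), L.length < N →
    (∀ p ∈ L, ¬ Low p) → theta μ (mon l1.1 * mon L) = Finsupp.single l1 (epsL μ L) := by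
  intro N
  induction N with
  | zero => intro L h; omega
  | succ N ih =>
    intro L hL hup
    have hp := List.perm_insertionSort (· ≤ ·) L
    have h1 := theta_perm μ l1 N ih hp.symm [] [] (by simp) (by simp) hup (by simp; omega)
    simp only [List.nil_append, List.append_nil] at h1
    rw [h1, theta_sorted μ l1 _ (List.pairwise_insertionSort (· ≤ ·) L)
      (fun p hp' => hup p (hp.mem_iff.1 hp'))]
    congr 1
    unfold epsL
    exact (hp.map _).prod_eq

/-- induction over the products of a lower and an upper sorted list -/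
theorem span_low_up {N : Type*} [AddCommGroup N] [Module ℂ N] (f : U n →ₗ[ℂ] N)
    (h : ∀ (l1 : LL n) (L : List (Ix n)), (∀ p ∈ L, ¬ Low p) → f (mon l1.1 * mon L) = 0)
    (u : U n) : f u = 0 := by
  have hu : u ∈ Submodule.span ℂ (Set.range (fun l : {l : List (Ix n) // Srt l} => mon l.1)) := by
    rw [span_mon]; trivial
  induction hu using Submodule.span_induction with
  | zero => simp
  | add x y _ _ h1 h2 => rw [map_add, h1, h2, add_zero]
  | smul a x _ h => rw [map_smul, h, smul_zero]
  | mem x hx =>
    obtain ⟨l, rfl⟩ := hx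
    change f (mon l.1) = 0
    rw [split_sorted l.1 l.2, mon_append]
    exact h (lowLL l) (upp l.1) (fun p hp => by simpa using (List.mem_filter.1 hp).2)

theorem theta_J (μ : Fin n → ℂ) {x : U n} (hx : x ∈ J μ) : ∀ a : U n, theta μ (a * x) = 0 := by
  unfold J at hx
  induction hx using Submodule.span_induction with
  | zero => simp
  | add x y _ _ h1 h2 => intro a; rw [mul_add, map_add, h1, h2, add_zero]
  | smul b x hx h => intro a; rw [smul_eq_mul, ← mul_assoc]; exact h _
  | mem x hx =>
    intro a
    refine span_low_up ((theta μ).comp (LinearMap.mulRight ℂ x)) ?_ a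
    intro l1 L hL
    simp only [LinearMap.comp_apply, LinearMap.mulRight_apply]
    rcases hx with ⟨i, j, hij, rfl⟩ | ⟨i, rfl⟩
    · have e1 : mon l1.1 * mon L * E i j = mon l1.1 * mon (L ++ [pr i j]) := by
        simp only [mon_append, mon_cons, mon_nil, mul_one, ee_pr, mul_assoc]
      rw [e1, theta_upper μ l1 _ _ (Nat.lt_succ_self _) ?_, epsL_append]
      · have : eps μ (pr i j) = 0 := if_neg hij.ne
        simp [this]
      · intro p hp
        rcases List.mem_append.1 hp with hp | hp
        · exact hL p hp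
        · rw [List.mem_singleton.1 hp]; exact not_low.2 hij.le
    · have e1 : mon l1.1 * mon L * (E i i - algebraMap ℂ (U n) (μ i)) =
          mon l1.1 * mon (L ++ [pr i i]) - (μ i) • (mon l1.1 * mon L) := by
        simp only [mon_append, mon_cons, mon_nil, mul_one, ee_pr, mul_sub, mul_assoc]
        rw [← Algebra.commutes, ← Algebra.smul_def, ← mul_smul_comm]
      rw [e1, map_sub, map_smul, theta_upper μ l1 _ _ (Nat.lt_succ_self _) ?_,
        theta_upper μ l1 _ _ (Nat.lt_succ_self _) hL, epsL_append]
      · have : eps μ (pr i i) = μ i := if_pos rfl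
        simp [this, mul_comm]
      · intro p hp
        rcases List.mem_append.1 hp with hp | hp
        · exact hL p hp
        · rw [List.mem_singleton.1 hp]; exact not_low.2 le_rfl

/-- highest weight vectors -/
structure IsHW {M : Type*} [AddCommGroup M] [Module (U n) M] [Module ℂ M]
    (μ : Fin n → ℂ) (w : M) : Prop where
  up : ∀ i j : Fin n, i < j → (E i j : U n) • w = 0
  di : ∀ i : Fin n, (E i i : U n) • w = μ i • w

section hw

variable {M : Type*} [AddCommGroup M] [Module (U n) M] [Module ℂ M] [IsScalarTower ℂ (U n) M]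

theorem smul_comm' (c : ℂ) (u : U n) (w : M) : u • (c • w) = c • (u • w) := by
  rw [← algebraMap_smul (U n) c w, ← mul_smul, ← Algebra.commutes, mul_smul, algebraMap_smul]

theorem IsHW.ee {μ : Fin n → ℂ} {w : M} (h : IsHW μ w) {p : Ix n} (hp : ¬ Low p) :
    ee p • w = eps μ p • w := by
  rcases (not_low.1 hp).lt_or_eq with h1 | h1
  · have : eps μ p = 0 := if_neg h1.ne
    rw [this, zero_smul]
    exact h.up _ _ h1
  · have : eps μ p = μ p.1 := if_pos h1
    rw [this]
    have h2 := h.di p.1
    unfold GT.ee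
    rwa [← h1]

theorem IsHW.mon {μ : Fin n → ℂ} {w : M} (h : IsHW μ w) : ∀ (L : List (Ix n)),
    (∀ p ∈ L, ¬ Low p) → mon L • w = epsL μ L • w := by
  intro L
  induction L with
  | nil => intro _; simp
  | cons p L ih =>
    intro hL
    rw [mon_cons, mul_smul, ih (fun q hq => hL q (by simp [hq])), smul_comm', h.ee (hL p (by simp)),
      epsL_cons, smul_smul, mul_comm]

theorem IsHW.J {μ : Fin n → ℂ} {w : M} (h : IsHW μ w) {x : U n} (hx : x ∈ J μ) : x • w = 0 := by
  unfold GT.J at hx
  induction hx using Submodule.span_induction with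
  | zero => simp
  | add x y _ _ h1 h2 => rw [add_smul, h1, h2, add_zero]
  | smul b x hx h => rw [smul_eq_mul, mul_smul, h, smul_zero]
  | mem x hx =>
    rcases hx with ⟨i, j, hij, rfl⟩ | ⟨i, rfl⟩
    · exact h.up i j hij
    · rw [sub_smul, h.di, algebraMap_smul, sub_self]

end hw

/-- the highest weight vector of a Verma module -/
noncomputable def hwv (μ : Fin n → ℂ) : Verma μ := Submodule.Quotient.mk 1

theorem smul_hwv (μ : Fin n → ℂ) (u : U n) : u • hwv μ = Submodule.Quotient.mk u := by
  unfold hwv
  rw [← Submodule.Quotient.mk_smul, smul_eq_mul, mul_one]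

theorem hwv_isHW (μ : Fin n → ℂ) : IsHW μ (hwv μ) where
  up i j hij := by
    rw [smul_hwv, Submodule.Quotient.mk_eq_zero]
    exact Submodule.subset_span (Or.inl ⟨i, j, hij, rfl⟩)
  di i := by
    rw [← sub_eq_zero, ← algebraMap_smul (U n) (μ i) (hwv μ), ← sub_smul, smul_hwv,
      Submodule.Quotient.mk_eq_zero]
    exact Submodule.subset_span (Or.inr ⟨i, rfl⟩)

/-- the coefficient map on the Verma module -/
noncomputable def thetaBar (μ : Fin n → ℂ) : Verma μ →ₗ[ℂ] (LL n →₀ ℂ) :=
  (Submodule.liftQ ((J μ).restrictScalars ℂ) (theta μ) (fun x hx => by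
    have := theta_J μ (x := x) hx 1
    rwa [one_mul] at this)).comp
    (Submodule.Quotient.restrictScalarsEquiv ℂ (J μ)).symm.toLinearMap

theorem thetaBar_mk (μ : Fin n → ℂ) (u : U n) :
    thetaBar μ (Submodule.Quotient.mk u) = theta μ u := rfl

theorem thetaBar_mon (μ : Fin n → ℂ) (l : LL n) :
    thetaBar μ (mon l.1 • hwv μ) = Finsupp.single l 1 := by
  rw [smul_hwv, thetaBar_mk]
  have := theta_sorted μ l [] List.Pairwise.nil (by simp)
  simpa using this

/-- the standard basis of a Verma module -/
noncomputable def verB (μ : Fin n → ℂ) : Module.Basis (LL n) ℂ (Verma μ) :=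
  Module.Basis.mk (v := fun l : LL n => mon l.1 • hwv μ)
    (LinearIndependent.of_comp (thetaBar μ) (by
      have : (thetaBar μ) ∘ (fun l : LL n => mon l.1 • hwv μ) = fun l => Finsupp.single l 1 :=
        funext (thetaBar_mon μ)
      rw [this]
      exact Finsupp.basisSingleOne.linearIndependent)) (by
      intro x _
      obtain ⟨u, rfl⟩ := Submodule.Quotient.mk_surjective _ x
      set S : Submodule ℂ (Verma μ) :=
        Submodule.span ℂ (Set.range (fun l : LL n => mon l.1 • hwv μ)) with hS
      have hf : ∀ v : U n, (S.mkQ.comp ((LinearMap.toSpanSingleton (U n) (Verma μ)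
          (hwv μ)).restrictScalars ℂ)) v = 0 := by
        refine span_low_up _ ?_
        intro l1 L hL
        simp only [LinearMap.comp_apply, LinearMap.coe_restrictScalars,
          LinearMap.toSpanSingleton_apply]
        rw [mul_smul, (hwv_isHW μ).mon L hL, smul_comm', map_smul]
        have : S.mkQ (mon l1.1 • hwv μ) = 0 := by
          rw [Submodule.mkQ_apply, Submodule.Quotient.mk_eq_zero]
          exact Submodule.subset_span ⟨l1, rfl⟩
        rw [this, smul_zero]
      have h2 := hf u
      simp only [LinearMap.comp_apply, LinearMap.coe_restrictScalars,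
          LinearMap.toSpanSingleton_apply] at h2
      rwa [Submodule.mkQ_apply, Submodule.Quotient.mk_eq_zero, smul_hwv] at h2)

theorem verB_apply (μ : Fin n → ℂ) (l : LL n) : verB μ l = mon l.1 • hwv μ := by
  unfold verB
  rw [Module.Basis.mk_apply]

theorem verB_repr (μ : Fin n → ℂ) (x : Verma μ) : (verB μ).repr x = thetaBar μ x := by
  have h : ((verB μ).repr : Verma μ →ₗ[ℂ] (LL n →₀ ℂ)) = thetaBar μ := by
    refine (verB μ).ext fun l => ?_
    rw [LinearEquiv.coe_coe, Module.Basis.repr_self, verB_apply, thetaBar_mon]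
  exact LinearMap.congr_fun h x

end Pool.Agent.R662.GT
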